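import Pool.Agent.Q46.SL.Inst

set_option autoImplicit false

/-! # Systems of polynomials and residue classes: the property `Near` -/

namespace Pool.Agent.Q46.SL

open Finset Filter Polynomial

/-- `n` polynomials of total degree at most `D` and at most `m` residue classes modulo each prime, such that modulo each prime
there is a residue outside the classes at which none of the polynomials vanishes -/
structure PE (n m D : ℕ) : Type where
  /-- the polynomials -/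
  f : Fin n → ℤ[X]
  /-- the residue classes -/
  E : ℕ → Finset ℕ
  deg : ∑ j, (f j).natDegree ≤ D
  adm : ∀ q : ℕ, q.Prime → (E q).card ≤ m ∧ ∃ a < q, a ∉ E q ∧ ∀ j, ¬ (q : ℤ) ∣ (f j).eval (a : ℤ)

/-- the values of the polynomials are almost primes, and the classes modulo the primes up to `M ^ κ` are avoided -/
def Near {n m D : ℕ} (B : ℕ) (θ : PE n m D) (κ M : ℝ) (x : ℤ) : Prop :=
  0 < x ∧ ((∀ j i, |(((θ.f j).coeff i : ℤ) : ℝ)| ≤ M ^ B) → (x : ℝ) ≤ M →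
    (∀ j, Almost (M ^ κ) ⌊((B : ℝ) + D + 1) / κ⌋₊ ((θ.f j).eval x)) ∧
      ∀ q : ℕ, q.Prime → (q : ℝ) ≤ M ^ κ → (x % (q : ℤ)).toNat ∉ θ.E q)

open Classical in
/-- **the criterion for `Near`** -/
theorem csN (n m D B r : ℕ) : CS (Near B : PE n m D → ℝ → ℝ → ℤ → Prop) (lg (m + D) r) r := by
  intro η h0 h1
  obtain ⟨κ, hκ, c, hc, hM⟩ := cs (m + D) r η h0 h1
  refine ⟨κ, hκ, c, hc, ?_⟩
  filter_upwards [hM, eventually_gt_atTop (1 : ℝ), (tendsto_rpow_atTop hκ).eventually_ge_atTop 2,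
    eventually_ge_atTop ((D : ℝ) + 1)] with M hM hM1 hM2 hM3
  refine ⟨hM.1, ?_⟩
  intro θ ι s v hv hS
  have hOm : ∀ q : ℕ, q.Prime →
      ((range q).filter (fun a : ℕ => a ∈ θ.E q ∨ ∃ j, (q : ℤ) ∣ (θ.f j).eval (a : ℤ))).card ≤ m + D ∧
      ∃ a < q, a ∉ (range q).filter (fun a : ℕ => a ∈ θ.E q ∨ ∃ j, (q : ℤ) ∣ (θ.f j).eval (a : ℤ)) := by
    intro q hq
    obtain ⟨h1, a, ha, haE, haf⟩ := θ.adm q hq
    constructor
    · have h2 : (range q).filter (fun a : ℕ => a ∈ θ.E q ∨ ∃ j, (q : ℤ) ∣ (θ.f j).eval (a : ℤ)) ⊆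
          θ.E q ∪ univ.biUnion (fun j => (range q).filter (fun a : ℕ => (q : ℤ) ∣ (θ.f j).eval (a : ℤ))) := by
        intro b hb
        rw [mem_filter] at hb
        rw [mem_union, mem_biUnion]
        rcases hb.2 with h | ⟨j, h⟩
        · exact Or.inl h
        · exact Or.inr ⟨j, mem_univ _, mem_filter.2 ⟨hb.1, h⟩⟩
      refine (card_le_card h2).trans ((card_union_le _ _).trans (add_le_add h1 ?_))
      refine card_biUnion_le.trans (le_trans (sum_le_sum fun j _ => ?_) θ.deg)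
      exact roots_card (θ.f j) q hq ⟨a, haf j⟩
    · refine ⟨a, ha, ?_⟩
      rw [mem_filter]
      rintro ⟨-, h | ⟨j, h⟩⟩
      · exact haE h
      · exact haf j h
  have key := hM.2 ⟨_, hOm⟩ ι s v hv hS
  refine key.trans ?_
  norm_cast
  apply card_le_card
  intro i hi
  rw [mem_filter] at hi ⊢
  refine ⟨hi.1, fun l => ?_⟩
  have hs := hi.2 l
  have hx00 : (0 : ℝ) < v i l := lt_of_lt_of_le (Real.rpow_pos_of_pos (by linarith) _) (hv i hi.1 l)
  have hx0 : 0 < v i l := by exact_mod_cast hx00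
  refine ⟨hx0, ?_⟩
  intro hC hxM
  obtain ⟨x, hx⟩ := Int.eq_ofNat_of_zero_le hx0.le
  rw [hx] at hs hxM ⊢
  have hxM' : (x : ℝ) ≤ M := by exact_mod_cast hxM
  have hav : ∀ q : ℕ, q.Prime → (q : ℝ) ≤ M ^ κ → (((x : ℕ) : ℤ) % (q : ℤ)).toNat ∉ θ.E q ∧
      ∀ j, ¬ (q : ℤ) ∣ (θ.f j).eval (x : ℤ) := by
    intro q hq hqM
    have h1 := hs q hq hqM
    have h2 : (((x : ℕ) : ℤ) % (q : ℤ)).toNat = x % q := by
      have : ((x : ℕ) : ℤ) % (q : ℤ) = ((x % q : ℕ) : ℤ) := by push_cast; rfl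
      rw [this]
      rfl
    rw [h2] at h1 ⊢
    simp only [mem_filter, mem_range, not_and, not_or, not_exists] at h1
    obtain ⟨h3, h4⟩ := h1 (Nat.mod_lt _ hq.pos)
    exact ⟨h3, fun j hd => h4 j ((eval_mod _ _ _).1 hd)⟩
  refine ⟨fun j => ?_, fun q hq hqM => (hav q hq hqM).1⟩
  apply almost_of κ hκ _ M hM1 hM2
  · intro q hq hqM
    exact (hav q hq hqM).2 j
  · have hDj : (θ.f j).natDegree ≤ D :=
      (single_le_sum (f := fun j => (θ.f j).natDegree) (fun _ _ => Nat.zero_le _) (mem_univ j)).trans θ.deg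
    refine (eval_bound (θ.f j) D hDj (M ^ B) M hM1.le (hC j) x hxM').trans ?_
    have h5 : M ^ ((B : ℝ) + D + 1) = M * M ^ B * M ^ D := by
      rw [Real.rpow_add_one (by linarith), Real.rpow_add (by linarith), Real.rpow_natCast, Real.rpow_natCast]
      ring
    rw [h5]
    have : 0 ≤ M ^ B := by positivity
    have : 0 ≤ M ^ D := by positivity
    apply mul_le_mul_of_nonneg_right _ (by positivity)
    exact mul_le_mul_of_nonneg_right hM3 (by positivity)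

/-- a form convenient for natural numbers -/
lemma near_nat {n m D : ℕ} {B : ℕ} {θ : PE n m D} {κ M : ℝ} {x : ℕ} (h : Near B θ κ M (x : ℤ))
    (hC : ∀ j i, |(((θ.f j).coeff i : ℤ) : ℝ)| ≤ M ^ B) (hx : (x : ℝ) ≤ M) :
    0 < x ∧ (∀ j, Almost (M ^ κ) ⌊((B : ℝ) + D + 1) / κ⌋₊ ((θ.f j).eval (x : ℤ))) ∧
      ∀ q : ℕ, q.Prime → (q : ℝ) ≤ M ^ κ → x % q ∉ θ.E q := by
  obtain ⟨h0, h12⟩ := h
  obtain ⟨h1, h2⟩ := h12 hC (by exact_mod_cast hx)
  refine ⟨by exact_mod_cast h0, h1, fun q hq hqM => ?_⟩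
  have h3 := h2 q hq hqM
  have h4 : (((x : ℕ) : ℤ) % (q : ℤ)).toNat = x % q := by
    have : ((x : ℕ) : ℤ) % (q : ℤ) = ((x % q : ℕ) : ℤ) := by push_cast; rfl
    rw [this]
    rfl
  rwa [h4] at h3

end Pool.Agent.Q46.SL
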