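import Pool.Agent.Q46.SL.Near

set_option autoImplicit false

/-! # Small tools for the applications of the sieve for vectors -/

namespace Pool.Agent.Q46.SL

open Finset Filter Polynomial

lemma cnt {c c1 : ℝ} (hc : c ≤ c1) {W L : ℝ} (hW : 0 ≤ W) (hL : 0 ≤ L) (a r : ℕ) :
    c * W / L ^ (r * a) ≤ c1 * W * (1 / L ^ (a * r)) := by
  rw [mul_comm a r, mul_one_div]
  apply div_le_div_of_nonneg_right _ (by positivity)
  exact mul_le_mul_of_nonneg_right hc hW

lemma log0 (p : ℕ) : 0 ≤ Real.log (p : ℝ) := Real.log_natCast_nonneg p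

lemma ord_le {p : ℕ} (hp : p.Prime) (g : ℤ) (hg : ¬ (p : ℤ) ∣ g) : orderOf (g : ZMod p) ≤ p := by
  have : Fact p.Prime := ⟨hp⟩
  have hgu : (g : ZMod p) ≠ 0 := by
    rw [Ne, ZMod.intCast_zmod_eq_zero_iff_dvd]
    exact hg
  have h3 : orderOf (g : ZMod p) ∣ p - 1 := orderOf_dvd_of_pow_eq_one (ZMod.pow_card_sub_one_eq_one hgu)
  have := hp.two_le
  exact (Nat.le_of_dvd (by omega) h3).trans (Nat.sub_le _ _)

lemma ord_le' {p : ℕ} [Fact p.Prime] (g : (ZMod p)ˣ) : orderOf g ≤ p := by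
  have hp : p.Prime := Fact.out
  have h1 : orderOf g ∣ Fintype.card (ZMod p)ˣ := orderOf_dvd_card
  rw [ZMod.card_units_eq_totient, Nat.totient_prime hp] at h1
  have := hp.two_le
  exact (Nat.le_of_dvd (by omega) h1).trans (Nat.sub_le _ _)

/-- all coefficients are at most `C` in absolute value -/
def cb (f : ℤ[X]) (C : ℝ) : Prop := ∀ i, |((f.coeff i : ℤ) : ℝ)| ≤ C

lemma cb_mono {f : ℤ[X]} {a b : ℝ} (h : cb f a) (hab : a ≤ b) : cb f b := fun i => (h i).trans hab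

lemma cb_C (a : ℤ) : cb (C a) |(a : ℝ)| := by
  intro i
  rw [coeff_C]
  split_ifs
  · exact le_rfl
  · simp

lemma cb_CX (a : ℤ) : cb (C a * X) |(a : ℝ)| := by
  intro i
  rw [coeff_C_mul, coeff_X]
  split_ifs
  · simp
  · simp

lemma cb_X : cb (X : ℤ[X]) 1 := by
  intro i
  rw [coeff_X]
  split_ifs <;> simp

lemma cb_Xp (n : ℕ) : cb ((X : ℤ[X]) ^ n) 1 := by
  intro i
  rw [coeff_X_pow]
  split_ifs <;> simp

lemma cb_CXp (a : ℤ) (n : ℕ) : cb (C a * X ^ n) |(a : ℝ)| := by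
  intro i
  rw [coeff_C_mul, coeff_X_pow]
  split_ifs <;> simp

lemma cb_add {f g : ℤ[X]} {a b : ℝ} (hf : cb f a) (hg : cb g b) : cb (f + g) (a + b) := by
  intro i
  rw [coeff_add]
  push_cast
  exact (abs_add_le _ _).trans (add_le_add (hf i) (hg i))

lemma cb_sub {f g : ℤ[X]} {a b : ℝ} (hf : cb f a) (hg : cb g b) : cb (f - g) (a + b) := by
  intro i
  rw [coeff_sub]
  push_cast
  exact (abs_sub _ _).trans (add_le_add (hf i) (hg i))

end Pool.Agent.Q46.SL
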