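import Pool.Agent.Q46.SL.Graph
import Pool.Agent.Q46.MH.One

set_option autoImplicit false

/-! # The criterion for one residue (generic version) -/

namespace Pool.Agent.Q46.SL

open Finset Filter
open Pool.Agent.H469R2.NK (e norm_e e_add)
open Pool.Agent.TH915.PW (e_int sum_char)
open Pool.Agent.W147.PS (ff ff_compare ev_pow)
open Pool.Agent.Q46.MH hiding good iso_two graph goodR graphR good1 graph1

open Classical in
/-- the members of `Ω` with `A ≤ x < A + N` and `x` in `P` -/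
noncomputable def good1 {ι : Type*} (P : ℤ → Prop) (Ω : Finset ι) (x : ι → ℕ) (A N : ℕ) : Finset ι :=
  Ω.filter (fun i => x i ∈ Ico A (A + N) ∧ P (x i))

/-- a family of residues modulo `m` with small exponential sums: many of the residues in an interval are isolated -/
theorem graph1 {Θ : Type} (Q : Θ → ℝ → ℝ → ℤ → Prop) (lam : ℝ → ℝ) (hQ : CS Q lam 1) (ε : ℝ) (hε : 0 < ε) (hε1 : ε ≤ 1) :
    ∃ κ : ℝ, 0 < κ ∧ ∃ cc : ℝ, 0 < cc ∧ ∀ᶠ M : ℝ in atTop, 0 ≤ lam M ∧ ∀ θ : Θ,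
    ∀ (m : ℕ), 1 ≤ m → (m : ℝ) ≤ M →
    ∀ (ι : Type) (Ω : Finset ι) (x : ι → ℕ), (∀ i ∈ Ω, x i < m) →
    ∀ B : ℝ, 0 ≤ B → (∀ h < m, h ≠ 0 → ‖∑ i ∈ Ω, e ((h : ℝ) * x i / m)‖ ≤ B) →
    ∀ A N : ℕ, A + N ≤ m → M ^ ε ≤ N →
      B * M ^ ε ≤ (N : ℝ) * Ω.card / m →
      cc * ((N : ℝ) * Ω.card / m) * lam M ≤ (good1 (Q θ κ M) Ω x A N).card := by
  classical
  obtain ⟨κ, hκ, cc, hcc, hg⟩ := graphR Q lam 1 hQ ε hε hε1
  refine ⟨κ, hκ, cc, hcc, ?_⟩
  filter_upwards [hg] with M hM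
  obtain ⟨hlam, hM⟩ := hM
  refine ⟨hlam, ?_⟩
  intro θ m hm hmM ι Ω x hx B hB hS A N hAN hN hW
  have e0 : (∏ j : Fin 1, (((fun _ : Fin 1 => N) j : ℕ) : ℝ) / ((fun _ : Fin 1 => m) j : ℕ)) * Ω.card =
      (N : ℝ) * Ω.card / m := by
    simp only [Fin.prod_univ_one]
    ring
  have key := hM θ (fun _ => m) (fun _ => hm) (fun _ => hmM) ι Ω (fun i _ => x i) (fun i hi _ => hx i hi) B hB
    (by
      intro h hh hh0
      have h0 : h 0 ≠ 0 := by
        intro h1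
        apply hh0
        funext j
        have : j = 0 := Subsingleton.elim _ _
        rw [this, h1]
        rfl
      have h2 := hS (h 0) (hh 0) h0
      refine le_trans (le_of_eq ?_) h2
      congr 1
      refine sum_congr rfl fun i _ => ?_
      rw [Fin.prod_univ_one])
    (fun _ => A) (fun _ => N) (fun _ => hAN) (fun _ => hN) (by rw [e0]; exact hW)
  rw [e0] at key
  refine key.trans ?_
  exact_mod_cast card_le_card (by
    intro i hi
    unfold goodR at hi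
    unfold good1
    rw [mem_filter] at hi ⊢
    exact ⟨hi.1, hi.2.1 0, hi.2.2 0⟩)

end Pool.Agent.Q46.SL
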