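import Pool.Agent.Q46.SL.Graph
import Pool.Agent.Q46.SL.One
import Pool.Agent.Q46.MH.Additive

set_option autoImplicit false

/-! # Additive equations over prime fields (generic version) -/

namespace Pool.Agent.Q46.SL

open Finset Filter
open Pool.Agent.H469R2.NK (e norm_e e_add)
open Pool.Agent.TH915.PW (e_int sum_char)
open Pool.Agent.W147.PS (ff ff_compare ev_pow)
open Polynomial
open Pool.Agent.Q46.MH hiding good iso_two graph goodR graphR good1 graph1 additive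
open Polynomial


/-- **additive equations** -/
theorem additive {Θ : Type} (Q : Θ → ℝ → ℝ → ℤ → Prop) (lam : ℕ → ℝ → ℝ) (hQ : ∀ r, 1 ≤ r → CS Q (lam r) r) (n : ℕ) (K : ℝ) (hK : 1 ≤ K) (ε : ℝ) (hε : 0 < ε) (hε1 : ε ≤ 1) : ∃ κ : ℝ, 0 < κ ∧
    ∃ cc : ℝ, 0 < cc ∧ ∃ p₀ : ℕ, ∀ p : ℕ, p₀ ≤ p → ∀ θ : Θ, ∀ [Fact p.Prime], ∀ (m : Fin n → ℕ) (F : Fin n → ℕ → ZMod p) (c : ZMod p),
      (∀ j, 1 ≤ m j) → (∀ j, m j ≤ p) →
      (∀ j, ∀ h < m j, ∀ t : ZMod p, t ≠ 0 → ‖SS (m j) (F j) h t‖ ≤ K * Real.sqrt p) →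
      ∀ A N : Fin n → ℕ, (∀ j, A j + N j ≤ m j) → (∀ j, (p : ℝ) ^ ε ≤ N j) →
        (p : ℝ) ^ ((n : ℝ) / 2 + 1 + ε) ≤ ∏ j, (N j : ℝ) →
        cc * ((∏ j, (N j : ℝ)) / p) * lam n p ≤
          (goodR (Q θ κ p) (sol m F c) (fun x j => x j) A N).card := by
  classical
  rcases Nat.eq_zero_or_pos n with hn0 | hn
  · subst hn0
    refine ⟨1, one_pos, 1, one_pos, 2, ?_⟩
    intro p hp _ _ m F c _ _ _ A N _ _ hP
    exfalso
    simp only [univ_eq_empty, prod_empty, Nat.cast_zero, zero_div, zero_add] at hP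
    have h1 : (1 : ℝ) < (p : ℝ) ^ (1 + ε) :=
      Real.one_lt_rpow (by exact_mod_cast (by omega : 1 < p)) (by linarith)
    linarith
  obtain ⟨κ, hκ, c0, hc0, hg⟩ := graphR Q (lam n) n (hQ n hn) (ε / 2) (by positivity) (by linarith)
  have e1 := (tendsto_natCast_atTop_atTop (R := ℝ)).eventually hg
  have e2 := (tendsto_natCast_atTop_atTop (R := ℝ)).eventually
    ((tendsto_rpow_atTop (show (0 : ℝ) < ε / 2 by positivity)).eventually_ge_atTop (2 * K ^ n))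
  obtain ⟨p₀, hp₀⟩ := (e1.and (e2.and (eventually_ge_atTop 2))).exists_forall_of_atTop
  refine ⟨κ, hκ, c0 / 2, by positivity, p₀, ?_⟩
  intro p hp θ _ m F c hm hmp hF A N hA hN hP
  obtain ⟨g1, g2, g3⟩ := hp₀ p hp
  have hpr : (2 : ℝ) ≤ p := by exact_mod_cast g3
  have hp0 : (0 : ℝ) < p := by linarith
  have hmono : ∀ x y : ℝ, x ≤ y → (p : ℝ) ^ x ≤ (p : ℝ) ^ y := fun x y h =>
    Real.rpow_le_rpow_of_exponent_le (by linarith) h
  have hKn : (1 : ℝ) ≤ K ^ n := one_le_pow₀ hK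
  have hmr : ∀ j, (0 : ℝ) < m j := fun j => by exact_mod_cast hm j
  set B : ℝ := (K * Real.sqrt p) ^ n with hB
  have hB0 : 0 ≤ B := by positivity
  have hBp : B = K ^ n * (p : ℝ) ^ ((n : ℝ) / 2) := by
    rw [hB, mul_pow, Real.sqrt_eq_rpow, ← Real.rpow_natCast ((p : ℝ) ^ (1 / 2 : ℝ)), ← Real.rpow_mul hp0.le]
    congr 2
    ring
  have hsol := sol_sum m hm F c K (by linarith) hF
  -- the number of solutions
  have hcard : (∏ j, (m j : ℝ)) / p - B ≤ (sol m F c).card := by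
    have h1 := hsol (fun _ => 0) (fun j => hm j)
    simp only [Nat.cast_zero, zero_mul, zero_div, e_zero', prod_const_one, sum_const, nsmul_eq_mul, mul_one,
      if_true] at h1
    have h2 : ((sol m F c).card : ℂ) - (∏ j, (m j : ℂ)) / p = (((sol m F c).card - (∏ j, (m j : ℝ)) / p : ℝ) : ℂ) := by
      push_cast
      ring
    rw [h2, Complex.norm_real, Real.norm_eq_abs] at h1
    have := (abs_le.1 h1).1
    linarith
  have hW1 : ∏ j, (N j : ℝ) / m j ≤ 1 := by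
    apply prod_le_one (fun j _ => div_nonneg (Nat.cast_nonneg _) (hmr j).le)
    intro j _
    rw [div_le_one (hmr j)]
    exact_mod_cast (by have := hA j; omega : N j ≤ m j)
  have hW0 : 0 ≤ ∏ j, (N j : ℝ) / m j := prod_nonneg fun j _ => div_nonneg (Nat.cast_nonneg _) (hmr j).le
  have hWm : (∏ j, (N j : ℝ) / m j) * ∏ j, (m j : ℝ) = ∏ j, (N j : ℝ) := by
    rw [← prod_mul_distrib]
    refine prod_congr rfl fun j _ => ?_
    have := (hmr j).ne'
    field_simp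
  have hWΩ : (∏ j, (N j : ℝ)) / p - B ≤ (∏ j, (N j : ℝ) / m j) * (sol m F c).card := by
    have h1 := mul_le_mul_of_nonneg_left hcard hW0
    have h2 : (∏ j, (N j : ℝ) / m j) * ((∏ j, (m j : ℝ)) / p - B) =
        (∏ j, (N j : ℝ)) / p - (∏ j, (N j : ℝ) / m j) * B := by
      rw [mul_sub, ← mul_div_assoc, hWm]
    have h3 : (∏ j, (N j : ℝ) / m j) * B ≤ B := by nlinarith
    linarith
  have hpe : 0 < (p : ℝ) ^ (ε / 2) := Real.rpow_pos_of_pos hp0 _
  have hNB : 2 * B * (p : ℝ) ^ (ε / 2) ≤ (∏ j, (N j : ℝ)) / p := by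
    rw [le_div_iff₀ hp0]
    refine le_trans ?_ hP
    rw [hBp]
    have h1 : (p : ℝ) ^ ((n : ℝ) / 2 + 1 + ε) = (p : ℝ) ^ ((n : ℝ) / 2) * p * ((p : ℝ) ^ (ε / 2) * (p : ℝ) ^ (ε / 2)) := by
      rw [Real.rpow_add hp0, Real.rpow_add hp0, Real.rpow_one, ← Real.rpow_add hp0]
      congr 2
      ring
    rw [h1]
    have h2 : 0 < (p : ℝ) ^ ((n : ℝ) / 2) := Real.rpow_pos_of_pos hp0 _
    calc 2 * (K ^ n * (p : ℝ) ^ ((n : ℝ) / 2)) * (p : ℝ) ^ (ε / 2) * p =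
          ((p : ℝ) ^ ((n : ℝ) / 2) * p * (p : ℝ) ^ (ε / 2)) * (2 * K ^ n) := by ring
      _ ≤ ((p : ℝ) ^ ((n : ℝ) / 2) * p * (p : ℝ) ^ (ε / 2)) * (p : ℝ) ^ (ε / 2) :=
          mul_le_mul_of_nonneg_left g2 (by positivity)
      _ = _ := by ring
  have hpe2 : 2 ≤ (p : ℝ) ^ (ε / 2) := by linarith
  have hB2 : 2 * B ≤ (∏ j, (N j : ℝ)) / p := by nlinarith
  have key := g1.2 θ m hm (fun j => by exact_mod_cast hmp j) (Fin n → ℕ) (sol m F c) (fun x j => x j)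
    (by
      intro x hx j
      unfold sol at hx
      rw [mem_filter, Fintype.mem_piFinset] at hx
      exact mem_range.1 (hx.1 j))
    B hB0
    (by
      intro h hh h0
      have h1 := hsol h hh
      obtain ⟨j0, hj0⟩ := Function.ne_iff.1 h0
      have h2 : (∏ j, if h j = 0 then (m j : ℂ) else 0) = 0 :=
        prod_eq_zero (mem_univ j0) (if_neg hj0)
      rw [h2, zero_div, sub_zero] at h1
      exact h1)
    A N hA (fun j => (hmono _ _ (by linarith)).trans (hN j))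
    (by
      refine le_trans ?_ hWΩ
      nlinarith)
  refine le_trans ?_ key
  have h1 : (∏ j, (N j : ℝ)) / p * (1 / 2) ≤ (∏ j, (N j : ℝ) / m j) * (sol m F c).card := by linarith
  calc c0 / 2 * ((∏ j, (N j : ℝ)) / p) * lam n p = c0 * ((∏ j, (N j : ℝ)) / p * (1 / 2)) * lam n p := by ring
    _ ≤ _ := mul_le_mul_of_nonneg_right (mul_le_mul_of_nonneg_left h1 hc0.le) g1.1

end Pool.Agent.Q46.SL
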