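import Pool.Agent.Q46.SL.Graph
import Pool.Agent.Q46.SL.One
import Pool.Agent.Q46.MH.Several

set_option autoImplicit false

/-! # Residues modulo several primes (generic version) -/

namespace Pool.Agent.Q46.SL

open Finset Filter
open Pool.Agent.H469R2.NK (e norm_e e_add)
open Pool.Agent.TH915.PW (e_int sum_char)
open Pool.Agent.W147.PS (ff ff_compare ev_pow)
open Polynomial
open Pool.Agent.Q46.MH hiding good iso_two graph goodR graphR good1 graph1 several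
open Polynomial


/-- **residues modulo several primes** -/
theorem several {Θ : Type} (Qz : Θ → ℝ → ℝ → ℤ → Prop) (lam : ℕ → ℝ → ℝ) (hQz : ∀ r, 1 ≤ r → CS Qz (lam r) r) (r : ℕ) (K : ℝ) (hK : 1 ≤ K) (ε : ℝ) (hε : 0 < ε) (hε1 : ε ≤ 1) : ∃ κ : ℝ, 0 < κ ∧
    ∃ cc : ℝ, 0 < cc ∧ ∃ Q₀ : ℕ,
    ∀ p : Fin r → ℕ, ∀ [∀ i, Fact (p i).Prime], Function.Injective p → Q₀ ≤ QQ p → ∀ θ : Θ,
      ∀ F : ∀ i, ZMod (p i) → ZMod (p i),
      (∀ i, ∀ a t : ZMod (p i), t ≠ 0 → ‖GG (F i) a t‖ ≤ K * Real.sqrt (p i)) →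
      ∀ (A₀ N₀ : ℕ) (A N : Fin r → ℕ), A₀ + N₀ ≤ QQ p → (∀ i, A i + N i ≤ p i) →
        ((QQ p : ℕ) : ℝ) ^ ε ≤ N₀ → (∀ i, ((QQ p : ℕ) : ℝ) ^ ε ≤ N i) →
        (∀ i, ((QQ p : ℕ) : ℝ) ^ (2 + ε) ≤ (N₀ : ℝ) * (∏ i, (N i : ℝ)) * Real.sqrt (p i)) →
        ∃ G : Finset ℕ, cc * ((N₀ : ℝ) * (∏ i, (N i : ℝ)) / ((QQ p : ℕ) : ℝ)) * lam (r + 1) (QQ p : ℕ) ≤ G.card ∧ ∀ n ∈ G,
          (A₀ ≤ n ∧ n < A₀ + N₀) ∧ (∀ i, A i ≤ (F i (n : ZMod (p i))).val ∧ (F i (n : ZMod (p i))).val < A i + N i) ∧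
          (Qz θ κ (QQ p : ℕ) (n)) ∧
          ∀ i, Qz θ κ (QQ p : ℕ) ((F i (n : ZMod (p i))).val) := by
  classical
  obtain ⟨κ, hκ, c0, hc0, hg⟩ := graphR Qz (lam (r + 1)) (r + 1) (hQz (r + 1) (by omega)) (ε / 2) (by positivity) (by linarith)
  have e1 := (tendsto_natCast_atTop_atTop (R := ℝ)).eventually hg
  have e2 := (tendsto_natCast_atTop_atTop (R := ℝ)).eventually
    ((tendsto_rpow_atTop (show (0 : ℝ) < ε / 2 by positivity)).eventually_ge_atTop K)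
  obtain ⟨Q₀, hQ₀⟩ := (e1.and (e2.and (eventually_ge_atTop 2))).exists_forall_of_atTop
  refine ⟨κ, hκ, c0, hc0, Q₀, ?_⟩
  intro p _ hp hpQ θ F hF A₀ N₀ A N hA0 hA hN0 hN hP
  obtain ⟨g1, g2, g3⟩ := hQ₀ (QQ p) hpQ
  set Q : ℕ := QQ p with hQ
  have hQr : (2 : ℝ) ≤ Q := by exact_mod_cast g3
  have hQ0 : (0 : ℝ) < Q := by linarith
  have hmono : ∀ x y : ℝ, x ≤ y → (Q : ℝ) ^ x ≤ (Q : ℝ) ^ y := fun x y h =>
    Real.rpow_le_rpow_of_exponent_le (by linarith) h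
  have hp0 : ∀ i, 0 < p i := fun i => (Fact.out : (p i).Prime).pos
  have hpQ' : ∀ i, p i ≤ Q := fun i => Nat.le_of_dvd QQ_pos ⟨qq p i, (mul_qq p i).symm⟩
  set m : Fin (r + 1) → ℕ := Fin.cons Q p with hm
  set x : (∀ i, ZMod (p i)) → Fin (r + 1) → ℕ := fun z => Fin.cons (nn p z) (fun i => (F i (z i)).val) with hx
  set A' : Fin (r + 1) → ℕ := Fin.cons A₀ A with hA'
  set N' : Fin (r + 1) → ℕ := Fin.cons N₀ N with hN'
  have hcardU : ((univ : Finset (∀ i, ZMod (p i))).card : ℝ) = Q := by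
    rw [card_univ, Fintype.card_pi]
    have : ∏ i, Fintype.card (ZMod (p i)) = Q := by
      rw [hQ]
      unfold QQ
      exact prod_congr rfl fun i _ => ZMod.card (p i)
    rw [this]
  have hprodp : ∏ i, (p i : ℝ) = Q := by
    rw [hQ]
    unfold QQ
    push_cast
    rfl
  set W : ℝ := (N₀ : ℝ) * (∏ i, (N i : ℝ)) / Q with hW
  have hW0 : 0 ≤ W := div_nonneg (mul_nonneg (Nat.cast_nonneg _) (prod_nonneg fun _ _ => Nat.cast_nonneg _)) hQ0.le
  have hprod : (∏ j, (N' j : ℝ) / m j) * ((univ : Finset (∀ i, ZMod (p i))).card : ℝ) = W := by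
    rw [Fin.prod_univ_succ, hcardU]
    simp only [hN', hm, Fin.cons_zero, Fin.cons_succ]
    rw [prod_div_distrib, hprodp, hW]
    field_simp
  have hB : ∀ i, K * Real.sqrt (p i) * qq p i ≤ K * W * (Q : ℝ) ^ (-ε) := by
    intro i
    have h1 := hP i
    have hs : 0 < Real.sqrt (p i) := Real.sqrt_pos.2 (by exact_mod_cast hp0 i)
    have h2 : ((Q : ℕ) : ℝ) = (p i : ℝ) * qq p i := by exact_mod_cast (mul_qq p i).symm
    have h3 : Real.sqrt (p i) * qq p i * Real.sqrt (p i) = Q := by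
      rw [h2]
      have := Real.mul_self_sqrt (show (0 : ℝ) ≤ p i from Nat.cast_nonneg _)
      calc _ = (Real.sqrt (p i) * Real.sqrt (p i)) * qq p i := by ring
        _ = _ := by rw [this]
    have h4 : Real.sqrt (p i) * qq p i ≤ W * (Q : ℝ) ^ (-ε) := by
      refine le_of_mul_le_mul_right ?_ hs
      rw [h3]
      have h5 : (Q : ℝ) ^ (2 + ε) * (Q : ℝ) ^ (-ε) = Q * Q := by
        rw [← Real.rpow_add hQ0]
        have : 2 + ε + -ε = ((2 : ℕ) : ℝ) := by push_cast; ring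
        rw [this, Real.rpow_natCast]
        ring
      have h6 := mul_le_mul_of_nonneg_right h1 (Real.rpow_nonneg hQ0.le (-ε))
      rw [h5] at h6
      have h7 : W * (Q : ℝ) ^ (-ε) * Real.sqrt (p i) =
          ((N₀ : ℝ) * (∏ i, (N i : ℝ)) * Real.sqrt (p i) * (Q : ℝ) ^ (-ε)) / Q := by
        rw [hW]
        field_simp
      rw [h7, le_div_iff₀ hQ0]
      exact h6
    calc K * Real.sqrt (p i) * qq p i = K * (Real.sqrt (p i) * qq p i) := by ring
      _ ≤ K * (W * (Q : ℝ) ^ (-ε)) := mul_le_mul_of_nonneg_left h4 (by linarith)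
      _ = _ := by ring
  have hB0 : 0 ≤ K * W * (Q : ℝ) ^ (-ε) :=
    mul_nonneg (mul_nonneg (by linarith) hW0) (Real.rpow_nonneg hQ0.le _)
  have key := g1.2 θ m
    (fun j => by
      refine Fin.cases ?_ (fun i => ?_) j
      · exact QQ_pos
      · exact hp0 i)
    (fun j => by
      refine Fin.cases ?_ (fun i => ?_) j
      · exact le_rfl
      · show ((p i : ℕ) : ℝ) ≤ Q
        exact_mod_cast hpQ' i)
    (∀ i, ZMod (p i)) univ x
    (fun z _ j => by
      refine Fin.cases ?_ (fun i => ?_) j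
      · exact nn_lt z
      · exact ZMod.val_lt _)
    (K * W * (Q : ℝ) ^ (-ε)) hB0
    (by
      intro h hh h0
      have h1 := several_bound hp F K _ hB0 hF hB (h 0) (fun i => h i.succ) (hh 0) (fun i => hh i.succ) (by
        by_contra hc
        push Not at hc
        apply h0
        funext j
        refine Fin.cases hc.1 (fun i => ?_) j
        exact congrFun hc.2 i)
      refine le_trans (le_of_eq ?_) h1
      congr 1
      refine sum_congr rfl fun z _ => ?_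
      rw [Fin.prod_univ_succ]
      rfl)
    A' N'
    (fun j => by
      refine Fin.cases ?_ (fun i => ?_) j
      · exact hA0
      · exact hA i)
    (fun j => by
      refine Fin.cases ?_ (fun i => ?_) j
      · exact (hmono _ _ (by linarith)).trans hN0
      · exact (hmono _ _ (by linarith)).trans (hN i))
    (by
      rw [hprod]
      have h1 : (Q : ℝ) ^ (-ε) * (Q : ℝ) ^ (ε / 2) * (Q : ℝ) ^ (ε / 2) = 1 := by
        rw [← Real.rpow_add hQ0, ← Real.rpow_add hQ0]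
        have : -ε + ε / 2 + ε / 2 = 0 := by ring
        rw [this, Real.rpow_zero]
      have h2 : 0 ≤ (Q : ℝ) ^ (-ε) * (Q : ℝ) ^ (ε / 2) := by positivity
      calc K * W * (Q : ℝ) ^ (-ε) * (Q : ℝ) ^ (ε / 2) = W * (((Q : ℝ) ^ (-ε) * (Q : ℝ) ^ (ε / 2)) * K) := by ring
        _ ≤ W * (((Q : ℝ) ^ (-ε) * (Q : ℝ) ^ (ε / 2)) * (Q : ℝ) ^ (ε / 2)) := by
            apply mul_le_mul_of_nonneg_left _ hW0
            exact mul_le_mul_of_nonneg_left g2 h2
        _ = W := by rw [h1, mul_one])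
  set G0 := goodR (Qz θ κ Q) (univ : Finset (∀ i, ZMod (p i))) x A' N' with hG0
  refine ⟨G0.image (nn p), ?_, ?_⟩
  · rw [card_image_of_injective]
    · rw [hprod] at key
      exact key
    · intro z w hzw
      funext i
      rw [← nn_cast hp z i, hzw, nn_cast hp w i]
  · intro n hn
    obtain ⟨z, hz, rfl⟩ := mem_image.1 hn
    rw [hG0] at hz
    unfold goodR at hz
    rw [mem_filter] at hz
    refine ⟨mem_Ico.1 (hz.2.1 0), fun i => ?_, hz.2.2 0, fun i => ?_⟩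
    · rw [nn_cast hp z i]
      exact mem_Ico.1 (hz.2.1 i.succ)
    · rw [nn_cast hp z i]
      exact hz.2.2 i.succ

end Pool.Agent.Q46.SL
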