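import Pool.Agent.Q46.SL.Graph
import Pool.Agent.Q46.SL.One
import Pool.Agent.Q46.MH.Fermat

set_option autoImplicit false

/-! # Fermat quotients (generic version) -/

namespace Pool.Agent.Q46.SL

open Finset Filter
open Pool.Agent.H469R2.NK (e norm_e e_add)
open Pool.Agent.TH915.PW (e_int sum_char)
open Pool.Agent.W147.PS (ff ff_compare ev_pow)
open Pool.Agent.Q46.MH hiding good iso_two graph goodR graphR good1 graph1 fermat_quotients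


/-- **Fermat quotients** -/
theorem fermat_quotients {Θ : Type} (Q : Θ → ℝ → ℝ → ℤ → Prop) (lam : ℕ → ℝ → ℝ) (hQ : ∀ r, 1 ≤ r → CS Q (lam r) r) (ε : ℝ) (hε : 0 < ε) (hε1 : ε ≤ 1) : ∃ κ : ℝ, 0 < κ ∧
    ∃ cc : ℝ, 0 < cc ∧ ∃ p₀ : ℕ, ∀ p : ℕ, p₀ ≤ p → ∀ θ : Θ,
    p.Prime → ∀ A1 N1 A2 N2 : ℕ, A1 + N1 ≤ p ^ 2 → A2 + N2 ≤ p → (p : ℝ) ^ (2 + ε) ≤ (N1 : ℝ) * N2 →
      ∃ G : Finset ℕ, cc * ((N1 : ℝ) * N2 / p) * lam 2 ((p : ℝ) ^ 2) ≤ G.card ∧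
        ∀ n ∈ G, (A1 ≤ n ∧ n < A1 + N1) ∧ ¬ p ∣ n ∧ (A2 ≤ fq p n ∧ fq p n < A2 + N2) ∧
          (Q θ κ ((p : ℝ) ^ 2) (n)) ∧
          Q θ κ ((p : ℝ) ^ 2) (fq p n) := by
  classical
  obtain ⟨κ, hκ, c0, hc0, hg⟩ := graph Q (lam 2) (hQ 2 (by norm_num)) (ε / 4) (by positivity) (by linarith)
  have e0 : Tendsto (fun p : ℕ => (p : ℝ) ^ 2) atTop atTop :=
    (tendsto_pow_atTop (by norm_num)).comp tendsto_natCast_atTop_atTop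
  have e1 := e0.eventually hg
  have e2 := (tendsto_natCast_atTop_atTop (R := ℝ)).eventually
    ((tendsto_rpow_atTop (show (0 : ℝ) < ε / 2 by positivity)).eventually_ge_atTop 2)
  obtain ⟨p₀, hp₀⟩ := (e1.and (e2.and (eventually_ge_atTop 2))).exists_forall_of_atTop
  refine ⟨κ, hκ, c0 / 2, by positivity, p₀, ?_⟩
  intro p hp0 θ hp A1 N1 A2 N2 hA1 hA2 hN
  obtain ⟨g1, g2, g3⟩ := hp₀ p hp0
  have : Fact p.Prime := ⟨hp⟩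
  have : NeZero (p ^ 2) := NZ
  have hpr : (2 : ℝ) ≤ p := by exact_mod_cast g3
  have hp0' : (0 : ℝ) < p := by linarith
  have hN1p : (N1 : ℝ) ≤ (p : ℝ) ^ 2 := by exact_mod_cast (by omega : N1 ≤ p ^ 2)
  have hN2p : (N2 : ℝ) ≤ p := by exact_mod_cast (by omega : N2 ≤ p)
  have hN10 : (0 : ℝ) ≤ N1 := Nat.cast_nonneg _
  have hN20 : (0 : ℝ) ≤ N2 := Nat.cast_nonneg _
  have hmono : ∀ x y : ℝ, x ≤ y → (p : ℝ) ^ x ≤ (p : ℝ) ^ y := fun x y h =>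
    Real.rpow_le_rpow_of_exponent_le (by linarith) h
  have hM : ((p : ℝ) ^ 2) ^ (ε / 4) = (p : ℝ) ^ (ε / 2) := by
    rw [← Real.rpow_natCast, ← Real.rpow_mul hp0'.le]
    congr 1
    push_cast
    ring
  have hM' : ((p : ℝ) ^ 2) ^ (-(ε / 4)) = (p : ℝ) ^ (-(ε / 2)) := by
    rw [← Real.rpow_natCast, ← Real.rpow_mul hp0'.le]
    congr 1
    push_cast
    ring
  have hsplit : (p : ℝ) ^ (2 + ε) = (p : ℝ) ^ 2 * (p : ℝ) ^ ε := by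
    rw [Real.rpow_add hp0', Real.rpow_two]
  have hN2 : (p : ℝ) ^ ε ≤ N2 := by
    rw [hsplit] at hN
    have h1 : (N1 : ℝ) * N2 ≤ (p : ℝ) ^ 2 * N2 := mul_le_mul_of_nonneg_right hN1p hN20
    exact le_of_mul_le_mul_left (hN.trans h1) (by positivity)
  have hN1 : (p : ℝ) ^ ε ≤ N1 := by
    rw [hsplit] at hN
    have h1 : (N1 : ℝ) * N2 ≤ N1 * p := mul_le_mul_of_nonneg_left hN2p hN10
    have h2 : (p : ℝ) * (p : ℝ) ^ ε * p ≤ N1 * p := by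
      refine le_trans (le_of_eq ?_) (hN.trans h1)
      ring
    have h3 := le_of_mul_le_mul_right h2 hp0'
    have h4 : 0 ≤ (p : ℝ) ^ ε := by positivity
    nlinarith
  have hcardU : ((univ : Finset (ZMod (p ^ 2))ˣ).card : ℝ) = (p : ℝ) * (p - 1) := by
    rw [card_univ, card_u]
    push_cast [Nat.cast_sub hp.one_lt.le]
    ring
  have hW : (N1 : ℝ) * N2 / (2 * p) ≤
      (N1 : ℝ) * N2 * (univ : Finset (ZMod (p ^ 2))ˣ).card / (((p ^ 2 : ℕ) : ℝ) * p) := by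
    rw [hcardU, div_le_div_iff₀ (by positivity) (by positivity)]
    have h1 : (p : ℝ) ≤ 2 * (p - 1) := by linarith
    have h2 : 0 ≤ (N1 : ℝ) * N2 * (p * p) := by positivity
    push_cast
    nlinarith
  have g2' : (2 : ℝ) * (p : ℝ) ^ (ε / 2) ≤ (p : ℝ) ^ ε := by
    have : (p : ℝ) ^ ε = (p : ℝ) ^ (ε / 2) * (p : ℝ) ^ (ε / 2) := by
      rw [← Real.rpow_add hp0']
      congr 1
      ring
    rw [this]
    exact mul_le_mul_of_nonneg_right g2 (by positivity)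
  have hBW : (p : ℝ) * ((p : ℝ) ^ 2) ^ (ε / 4) ≤
      (N1 : ℝ) * N2 * (univ : Finset (ZMod (p ^ 2))ˣ).card / (((p ^ 2 : ℕ) : ℝ) * p) := by
    refine le_trans ?_ hW
    rw [hM, le_div_iff₀ (by positivity)]
    rw [hsplit] at hN
    calc (p : ℝ) * (p : ℝ) ^ (ε / 2) * (2 * p) = (p : ℝ) ^ 2 * (2 * (p : ℝ) ^ (ε / 2)) := by ring
      _ ≤ (p : ℝ) ^ 2 * (p : ℝ) ^ ε := mul_le_mul_of_nonneg_left g2' (by positivity)
      _ ≤ _ := hN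
  have hεε : (p : ℝ) ^ (ε / 2) ≤ (p : ℝ) ^ ε := hmono _ _ (by linarith)
  have hpp2 : 1 ≤ p ^ 2 := Nat.one_le_pow _ _ hp.pos
  have hpp3 : ((p ^ 2 : ℕ) : ℝ) ≤ (p : ℝ) ^ 2 := by push_cast; exact le_rfl
  have hpp4 : (p : ℝ) ≤ (p : ℝ) ^ 2 := by nlinarith
  have k1 : ∀ u ∈ (univ : Finset (ZMod (p ^ 2))ˣ), (fun u : (ZMod (p ^ 2))ˣ => (u : ZMod (p ^ 2)).val) u < p ^ 2 :=
    fun u _ => ZMod.val_lt (u : ZMod (p ^ 2))
  have k2 : ∀ u ∈ (univ : Finset (ZMod (p ^ 2))ˣ), (fun u : (ZMod (p ^ 2))ˣ => fq p (u : ZMod (p ^ 2)).val) u < p :=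
    fun u _ => fq_lt p _ hp.pos
  have k3 : ∀ h < p ^ 2, ∀ k < p, (h ≠ 0 ∨ k ≠ 0) →
      ‖∑ u ∈ (univ : Finset (ZMod (p ^ 2))ˣ),
        e ((h : ℝ) * ((fun u : (ZMod (p ^ 2))ˣ => (u : ZMod (p ^ 2)).val) u : ℕ) / ((p ^ 2 : ℕ) : ℝ)) *
        e ((k : ℝ) * ((fun u : (ZMod (p ^ 2))ˣ => fq p (u : ZMod (p ^ 2)).val) u : ℕ) / p)‖ ≤ (p : ℝ) :=
    fun h hh k hk h0 => fq_sum h k hh hk h0
  have k4 : ((p : ℝ) ^ 2) ^ (ε / 4) ≤ N1 := by rw [hM]; exact hεε.trans hN1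
  have k5 : ((p : ℝ) ^ 2) ^ (ε / 4) ≤ N2 := by rw [hM]; exact hεε.trans hN2
  have q1 := g1.2 θ (p ^ 2) p hpp2 hp.one_lt.le hpp3 hpp4
  have q2 := q1 (ZMod (p ^ 2))ˣ univ (fun u : (ZMod (p ^ 2))ˣ => (u : ZMod (p ^ 2)).val)
    (fun u : (ZMod (p ^ 2))ˣ => fq p (u : ZMod (p ^ 2)).val)
  have q3 := q2 k1
  have q4 := q3 k2 (p : ℝ) hp0'.le
  have q5 := q4 k3
  have q6 := q5 A1 N1 A2 N2 hA1 hA2 k4 k5
  have key := q6 hBW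
  set G0 := good (Q θ κ ((p : ℝ) ^ 2)) (univ : Finset (ZMod (p ^ 2))ˣ) (fun u => (u : ZMod (p ^ 2)).val)
    (fun u => fq p (u : ZMod (p ^ 2)).val) A1 N1 A2 N2 with hG0
  refine ⟨G0.image (fun u : (ZMod (p ^ 2))ˣ => (u : ZMod (p ^ 2)).val), ?_, ?_⟩
  · rw [card_image_of_injective]
    · refine le_trans ?_ key
      calc c0 / 2 * ((N1 : ℝ) * N2 / p) * lam 2 ((p : ℝ) ^ 2) = c0 * ((N1 : ℝ) * N2 / (2 * p)) * lam 2 ((p : ℝ) ^ 2) := by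
            field_simp
        _ ≤ _ := mul_le_mul_of_nonneg_right (mul_le_mul_of_nonneg_left hW hc0.le) g1.1
    · intro u v huv
      exact Units.ext (ZMod.val_injective (p ^ 2) huv)
  · intro n hn
    obtain ⟨u, hu, rfl⟩ := mem_image.1 hn
    rw [hG0] at hu
    unfold good at hu
    rw [mem_filter, mem_Ico, mem_Ico] at hu
    obtain ⟨-, h1, h2, h3, h4⟩ := hu
    exact ⟨h1, cop u, h2, h3, h4⟩

end Pool.Agent.Q46.SL
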