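import Pool.Agent.Q46.SL.Graph
import Pool.Agent.Q46.SL.One
import Pool.Agent.Q46.MH.Hyp

set_option autoImplicit false

/-! # Modular hyperbolas and modular exponential functions (generic version) -/

namespace Pool.Agent.Q46.SL

open Finset Filter
open Pool.Agent.H469R2.NK (e norm_e e_add)
open Pool.Agent.W147.PS (ff ff_compare ev_pow)
open Pool.Agent.Q46.MH hiding good iso_two graph goodR graphR good1 graph1 hyperbola

/-- **modular hyperbolas** -/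
theorem hyperbola {Θ : Type} (Q : Θ → ℝ → ℝ → ℤ → Prop) (lam : ℕ → ℝ → ℝ) (hQ : ∀ r, 1 ≤ r → CS Q (lam r) r) (ε : ℝ) (hε : 0 < ε) (hε1 : ε ≤ 1) : ∃ κ : ℝ, 0 < κ ∧
    ∃ cc : ℝ, 0 < cc ∧ ∃ p₀ : ℕ, ∀ p : ℕ, p₀ ≤ p → ∀ θ : Θ,
    p.Prime → ∀ c : ℤ, ¬ (p : ℤ) ∣ c → ∀ A1 N1 A2 N2 : ℕ, A1 + N1 ≤ p → A2 + N2 ≤ p →
      (p : ℝ) ^ (3 / 2 + ε) ≤ (N1 : ℝ) * N2 →
      ∃ G : Finset (ℕ × ℕ), cc * ((N1 : ℝ) * N2 / p) * lam 2 p ≤ G.card ∧
        ∀ z ∈ G, (A1 ≤ z.1 ∧ z.1 < A1 + N1) ∧ (A2 ≤ z.2 ∧ z.2 < A2 + N2) ∧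
          (p : ℤ) ∣ z.1 * z.2 - c ∧
          (Q θ κ p (z.1)) ∧ Q θ κ p (z.2) := by
  classical
  obtain ⟨κ, hκ, c0, hc0, hg⟩ := graph Q (lam 2) (hQ 2 (by norm_num)) (ε / 2) (by positivity) (by linarith)
  have e1 := (tendsto_natCast_atTop_atTop (R := ℝ)).eventually hg
  have e2 := (tendsto_natCast_atTop_atTop (R := ℝ)).eventually
    ((tendsto_rpow_atTop (show (0 : ℝ) < ε / 2 by positivity)).eventually_ge_atTop 4)
  obtain ⟨p₀, hp₀⟩ := (e1.and (e2.and (eventually_ge_atTop 2))).exists_forall_of_atTop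
  refine ⟨κ, hκ, c0 / 2, by positivity, p₀, ?_⟩
  intro p hp0 θ hp c hc A1 N1 A2 N2 hA1 hA2 hN
  obtain ⟨g1, g2, g3⟩ := hp₀ p hp0
  have : Fact p.Prime := ⟨hp⟩
  have hpr : (2 : ℝ) ≤ p := by exact_mod_cast g3
  have hp0' : (0 : ℝ) < p := by linarith
  have hN2p : (N2 : ℝ) ≤ p := by exact_mod_cast (by omega : N2 ≤ p)
  have hN1p : (N1 : ℝ) ≤ p := by exact_mod_cast (by omega : N1 ≤ p)
  have hN10 : (0 : ℝ) ≤ N1 := Nat.cast_nonneg _
  have hN20 : (0 : ℝ) ≤ N2 := Nat.cast_nonneg _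
  have hcu : (c : ZMod p) ≠ 0 := by
    rw [Ne, ZMod.intCast_zmod_eq_zero_iff_dvd]
    exact hc
  set cu : (ZMod p)ˣ := Units.mk0 (c : ZMod p) hcu with hcud
  have hmono : ∀ x y : ℝ, x ≤ y → (p : ℝ) ^ x ≤ (p : ℝ) ^ y := fun x y h =>
    Real.rpow_le_rpow_of_exponent_le (by linarith) h
  have hsplit : (p : ℝ) ^ (3 / 2 + ε) = (p : ℝ) ^ (1 / 2 + ε) * p := by
    have : (3 / 2 + ε) = (1 / 2 + ε) + 1 := by ring
    rw [this, Real.rpow_add_one hp0'.ne']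
  have hN1 : (p : ℝ) ^ (1 / 2 + ε) ≤ N1 := by
    rw [hsplit] at hN
    have : (N1 : ℝ) * N2 ≤ N1 * p := mul_le_mul_of_nonneg_left hN2p hN10
    exact le_of_mul_le_mul_right (hN.trans this) hp0'
  have hN2 : (p : ℝ) ^ (1 / 2 + ε) ≤ N2 := by
    rw [hsplit] at hN
    have : (N1 : ℝ) * N2 ≤ N2 * p := by
      rw [mul_comm]
      exact mul_le_mul_of_nonneg_left hN1p hN20
    exact le_of_mul_le_mul_right (hN.trans this) hp0'
  have hcardU : ((univ : Finset (ZMod p)ˣ).card : ℝ) = (p : ℝ) - 1 := by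
    rw [card_univ, ZMod.card_units_eq_totient, Nat.totient_prime hp, Nat.cast_sub hp.one_lt.le]
    simp
  have hW : (N1 : ℝ) * N2 / (2 * p) ≤ (N1 : ℝ) * N2 * (univ : Finset (ZMod p)ˣ).card / (p * p) := by
    rw [hcardU, div_le_div_iff₀ (by positivity) (by positivity)]
    have h1 : (p : ℝ) ≤ 2 * (p - 1) := by linarith
    have h2 : 0 ≤ (N1 : ℝ) * N2 * p := by positivity
    nlinarith
  have hBW : 2 * Real.sqrt p * (p : ℝ) ^ (ε / 2) ≤
      (N1 : ℝ) * N2 * (univ : Finset (ZMod p)ˣ).card / (p * p) := by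
    refine le_trans ?_ hW
    rw [le_div_iff₀ (by positivity)]
    have h5 : 2 * Real.sqrt p * (p : ℝ) ^ (ε / 2) * (2 * p) = 4 * ((p : ℝ) ^ (1 / 2 + ε / 2) * p) := by
      rw [Real.sqrt_eq_rpow, Real.rpow_add hp0']
      ring
    rw [h5]
    refine le_trans ?_ hN
    rw [hsplit, ← mul_assoc]
    apply mul_le_mul_of_nonneg_right _ hp0'.le
    have : (p : ℝ) ^ (1 / 2 + ε) = (p : ℝ) ^ (ε / 2) * (p : ℝ) ^ (1 / 2 + ε / 2) := by
      rw [← Real.rpow_add hp0']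
      congr 1
      ring
    rw [this]
    exact mul_le_mul_of_nonneg_right g2 (by positivity)
  have key := g1.2 θ p p hp.one_lt.le hp.one_lt.le le_rfl le_rfl (ZMod p)ˣ univ
    (fun u => (u : ZMod p).val) (fun u => ((cu * u⁻¹ : (ZMod p)ˣ) : ZMod p).val)
    (fun u _ => ZMod.val_lt _) (fun u _ => ZMod.val_lt _) (2 * Real.sqrt p) (by positivity)
    (fun h hh k hk h0 => hyp_sum cu h k hh hk h0) A1 N1 A2 N2 hA1 hA2
    ((hmono _ _ (by linarith)).trans hN1) ((hmono _ _ (by linarith)).trans hN2) hBW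
  set G0 := good (Q θ κ p) (univ : Finset (ZMod p)ˣ) (fun u => (u : ZMod p).val)
    (fun u => ((cu * u⁻¹ : (ZMod p)ˣ) : ZMod p).val) A1 N1 A2 N2 with hG0
  refine ⟨G0.image (fun u : (ZMod p)ˣ => ((u : ZMod p).val, ((cu * u⁻¹ : (ZMod p)ˣ) : ZMod p).val)), ?_, ?_⟩
  · rw [card_image_of_injective]
    · refine le_trans ?_ key
      calc c0 / 2 * ((N1 : ℝ) * N2 / p) * lam 2 p = c0 * ((N1 : ℝ) * N2 / (2 * p)) * lam 2 p := by
            field_simp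
        _ ≤ _ := mul_le_mul_of_nonneg_right (mul_le_mul_of_nonneg_left hW hc0.le) g1.1
    · intro u v huv
      have h1 : (u : ZMod p).val = (v : ZMod p).val := (Prod.ext_iff.1 huv).1
      exact Units.ext (ZMod.val_injective p h1)
  · intro z hz
    obtain ⟨u, hu, rfl⟩ := mem_image.1 hz
    rw [hG0] at hu
    unfold good at hu
    rw [mem_filter, mem_Ico, mem_Ico] at hu
    obtain ⟨-, h1, h2, h3, h4⟩ := hu
    refine ⟨h1, h2, ?_, h3, h4⟩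
    rw [← ZMod.intCast_zmod_eq_zero_iff_dvd, Int.cast_sub, Int.cast_mul, Int.cast_natCast, Int.cast_natCast,
      ZMod.natCast_zmod_val, ZMod.natCast_zmod_val, ← Units.val_mul]
    have : u * (cu * u⁻¹) = cu := by
      rw [mul_comm cu, ← mul_assoc, mul_inv_cancel, one_mul]
    rw [this, hcud, Units.val_mk0, sub_self]

end Pool.Agent.Q46.SL
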