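import Pool.Agent.Q46.SV.Main
import Pool.Agent.Q46.SL.Graph

set_option autoImplicit false

/-! # The instance: residue classes avoided modulo all primes up to a small power, almost prime values -/

namespace Pool.Agent.Q46.SL

open Finset Filter Polynomial
open Pool.Agent.H469R2.NK (e)

/-- at most `k` residue classes modulo each prime, never all classes -/
def Cls (k : ℕ) : Type := {Om : ℕ → Finset ℕ // ∀ q : ℕ, q.Prime → (Om q).card ≤ k ∧ ∃ a < q, a ∉ Om q}

/-- the integer avoids the classes modulo all primes up to `M ^ κ` -/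
def Sft (k : ℕ) (Om : Cls k) (κ M : ℝ) (x : ℤ) : Prop :=
  ∀ q : ℕ, q.Prime → (q : ℝ) ≤ M ^ κ → (x % (q : ℤ)).toNat ∉ Om.1 q

/-- the density -/
noncomputable def lg (k r : ℕ) (M : ℝ) : ℝ := 1 / (Real.log M) ^ (k * r)

/-- the criterion -/
theorem cs (k r : ℕ) : CS (Sft k) (lg k r) r := by
  intro η h0 h1
  obtain ⟨κ, hκ, -, c, hc, hM⟩ := SV.sieve_fam r k η h0 h1
  refine ⟨κ, hκ, c, hc, ?_⟩
  filter_upwards [hM, eventually_ge_atTop (1 : ℝ)] with M hM hM1
  have hl := Real.log_nonneg hM1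
  refine ⟨by unfold lg; positivity, ?_⟩
  intro Om ι s v _ hS
  have h2 := hM (fun _ => Om.1) (fun _ q hq => Om.2 q hq) ι s v hS
  have h3 : c * s.card * lg k r M = c * s.card / (Real.log M) ^ (k * r) := by
    unfold lg
    ring
  rw [h3]
  refine h2.trans (le_of_eq ?_)
  unfold Sft SV.res
  congr!

/-- `n` is nonzero and has at most `R` prime factors, counted with multiplicity, all larger than `z` -/
def Almost (z : ℝ) (R : ℕ) (n : ℤ) : Prop :=
  n ≠ 0 ∧ n.natAbs.primeFactorsList.length ≤ R ∧ ∀ q : ℕ, q.Prime → (q : ℤ) ∣ n → z < q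

lemma pow_length_le (l : List ℕ) (z : ℝ) (hz : 0 ≤ z) (h : ∀ q ∈ l, z ≤ q) : z ^ l.length ≤ (l.prod : ℕ) := by
  induction l with
  | nil => simp
  | cons a l ih =>
    rw [List.length_cons, List.prod_cons, pow_succ, mul_comm, Nat.cast_mul]
    have h1 := ih (fun q hq => h q (List.mem_cons_of_mem _ hq))
    have h2 := h a List.mem_cons_self
    exact mul_le_mul h2 h1 (by positivity) (by linarith)

lemma almost_of (κ : ℝ) (hκ : 0 < κ) (B : ℝ) (M : ℝ) (hM : 1 < M) (hM2 : 2 ≤ M ^ κ) (n : ℤ)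
    (hn : ∀ q : ℕ, q.Prime → (q : ℝ) ≤ M ^ κ → ¬ (q : ℤ) ∣ n) (hB : |(n : ℝ)| ≤ M ^ B) :
    Almost (M ^ κ) ⌊B / κ⌋₊ n := by
  have hn0 : n ≠ 0 := by
    rintro rfl
    exact hn 2 Nat.prime_two (by exact_mod_cast hM2) (dvd_zero _)
  have hprime : ∀ q : ℕ, q.Prime → (q : ℤ) ∣ n → M ^ κ < q := by
    intro q hq hd
    by_contra h
    exact hn q hq (not_lt.1 h) hd
  refine ⟨hn0, ?_, hprime⟩
  apply Nat.le_floor
  rw [le_div_iff₀ hκ]
  have h1 := pow_length_le n.natAbs.primeFactorsList (M ^ κ) (by linarith) (by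
    intro q hq
    have h2 := Nat.prime_of_mem_primeFactorsList hq
    have h3 := Nat.dvd_of_mem_primeFactorsList hq
    exact (hprime q h2 (Int.natCast_dvd.2 h3)).le)
  rw [Nat.prod_primeFactorsList (by omega)] at h1
  have h2 : ((n.natAbs : ℕ) : ℝ) = |(n : ℝ)| := by
    rw [Nat.cast_natAbs, Int.cast_abs]
  rw [h2] at h1
  have h3 := h1.trans hB
  rw [← Real.rpow_natCast, ← Real.rpow_mul (by linarith)] at h3
  have h4 := (Real.rpow_le_rpow_left_iff hM).1 h3
  linarith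

lemma eval_bound (f : ℤ[X]) (D : ℕ) (hD : f.natDegree ≤ D) (C M : ℝ) (hM : 1 ≤ M)
    (hC : ∀ i, |((f.coeff i : ℤ) : ℝ)| ≤ C) (x : ℕ) (hx : (x : ℝ) ≤ M) :
    |((f.eval (x : ℤ) : ℤ) : ℝ)| ≤ (D + 1) * C * M ^ D := by
  rw [eval_eq_sum_range' (Nat.lt_succ_of_le hD)]
  push_cast
  refine (abs_sum_le_sum_abs _ _).trans ?_
  have h1 : ∀ i ∈ range D.succ, |((f.coeff i : ℤ) : ℝ) * (x : ℝ) ^ i| ≤ C * M ^ D := by
    intro i hi
    rw [abs_mul, abs_pow, Nat.abs_cast]
    have hiD : i ≤ D := by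
      rw [mem_range] at hi
      omega
    have hC0 : 0 ≤ C := (abs_nonneg _).trans (hC 0)
    exact mul_le_mul (hC i) ((pow_le_pow_left₀ (Nat.cast_nonneg _) hx i).trans (pow_le_pow_right₀ hM hiD))
      (by positivity) hC0
  refine (sum_le_sum h1).trans (le_of_eq ?_)
  rw [sum_const, card_range, nsmul_eq_mul]
  push_cast
  ring

lemma roots_card (f : ℤ[X]) (q : ℕ) (hq : q.Prime) (hf : ∃ a : ℕ, ¬ (q : ℤ) ∣ f.eval (a : ℤ)) :
    ((range q).filter (fun a : ℕ => (q : ℤ) ∣ f.eval (a : ℤ))).card ≤ f.natDegree := by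
  classical
  have : Fact q.Prime := ⟨hq⟩
  set g : (ZMod q)[X] := f.map (Int.castRingHom (ZMod q)) with hg
  have hev : ∀ a : ℕ, ((f.eval (a : ℤ) : ℤ) : ZMod q) = g.eval (a : ZMod q) := by
    intro a
    have h5 := Polynomial.eval_intCast_map (Int.castRingHom (ZMod q)) f (a : ℤ)
    rw [Int.cast_natCast] at h5
    rw [hg, h5, eq_intCast]
    rfl
  have hg0 : g ≠ 0 := by
    intro h0
    obtain ⟨a, ha⟩ := hf
    apply ha
    rw [← ZMod.intCast_zmod_eq_zero_iff_dvd, hev, h0, eval_zero]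
  have h1 : ((range q).filter (fun a : ℕ => (q : ℤ) ∣ f.eval (a : ℤ))).card ≤ g.roots.toFinset.card := by
    apply card_le_card_of_injOn (fun a : ℕ => (a : ZMod q))
    · intro a ha
      rw [mem_coe, mem_filter] at ha
      rw [mem_coe, Multiset.mem_toFinset, mem_roots hg0, IsRoot.def, ← hev, ZMod.intCast_zmod_eq_zero_iff_dvd]
      exact ha.2
    · intro a ha b hb hab
      rw [mem_coe, mem_filter, mem_range] at ha hb
      have h2 := congrArg ZMod.val hab
      simp only [ZMod.val_natCast] at h2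
      rwa [Nat.mod_eq_of_lt ha.1, Nat.mod_eq_of_lt hb.1] at h2
  refine h1.trans ((Multiset.toFinset_card_le _).trans ((card_roots' g).trans ?_))
  exact natDegree_map_le

lemma eval_mod (f : ℤ[X]) (q x : ℕ) : (q : ℤ) ∣ f.eval (x : ℤ) ↔ (q : ℤ) ∣ f.eval ((x % q : ℕ) : ℤ) := by
  have h1 : (x : ℤ) - ((x % q : ℕ) : ℤ) ∣ f.eval (x : ℤ) - f.eval ((x % q : ℕ) : ℤ) := sub_dvd_eval_sub _ _ _
  have h2 : (q : ℤ) ∣ (x : ℤ) - ((x % q : ℕ) : ℤ) := by
    refine ⟨(x / q : ℕ), ?_⟩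
    have := Nat.div_add_mod x q
    have h3 : ((q * (x / q) + x % q : ℕ) : ℤ) = (x : ℤ) := by rw [this]
    push_cast at h3 ⊢
    linarith
  have h3 := h2.trans h1
  constructor
  · intro h
    have := dvd_sub h h3
    simpa using this
  · intro h
    have := dvd_add h h3
    simpa using this

end Pool.Agent.Q46.SL
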