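import Pool.Agent.Q46.SL.Graph
import Pool.Agent.Q46.SL.One
import Pool.Agent.Q46.MH.LogInv

set_option autoImplicit false

/-! # A residue, its inverse and its discrete logarithm (generic version) -/

namespace Pool.Agent.Q46.SL

open Finset Filter
open Pool.Agent.H469R2.NK (e norm_e e_add)
open Pool.Agent.TH915.PW (e_int sum_char)
open Pool.Agent.W147.PS (ff ff_compare ev_pow)
open Pool.Agent.Q46.MH hiding good iso_two graph goodR graphR good1 graph1 loginv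


/-- **a residue, its inverse and its logarithm** -/
theorem loginv {Θ : Type} (Q : Θ → ℝ → ℝ → ℤ → Prop) (lam : ℕ → ℝ → ℝ) (hQ : ∀ r, 1 ≤ r → CS Q (lam r) r) (ε : ℝ) (hε : 0 < ε) (hε1 : ε ≤ 1) : ∃ κ : ℝ, 0 < κ ∧
    ∃ cc : ℝ, 0 < cc ∧ ∃ p₀ : ℕ, ∀ p : ℕ, p₀ ≤ p → ∀ θ : Θ, ∀ [Fact p.Prime], ∀ (g u v : (ZMod p)ˣ) (A N : Fin 3 → ℕ),
      A 0 + N 0 ≤ orderOf g → A 1 + N 1 ≤ p → A 2 + N 2 ≤ p → (∀ j, (p : ℝ) ^ ε ≤ N j) →
      (p : ℝ) ^ (10 + ε) * ((orderOf g : ℕ) : ℝ) ≤ ((N 0 : ℝ) * N 1 * N 2) ^ 4 →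
        ∃ G : Finset ℕ, cc * ((N 0 : ℝ) * N 1 * N 2 / (p : ℝ) ^ 2) * lam 3 p ≤ G.card ∧ ∀ n ∈ G,
          (A 0 ≤ n ∧ n < A 0 + N 0) ∧
          (A 1 ≤ ((u * g ^ n : (ZMod p)ˣ) : ZMod p).val ∧ ((u * g ^ n : (ZMod p)ˣ) : ZMod p).val < A 1 + N 1) ∧
          (A 2 ≤ ((v * (g ^ n)⁻¹ : (ZMod p)ˣ) : ZMod p).val ∧ ((v * (g ^ n)⁻¹ : (ZMod p)ˣ) : ZMod p).val < A 2 + N 2) ∧
          (Q θ κ p (n)) ∧
          (Q θ κ p (((u * g ^ n : (ZMod p)ˣ) : ZMod p).val)) ∧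
          Q θ κ p (((v * (g ^ n)⁻¹ : (ZMod p)ˣ) : ZMod p).val) := by
  classical
  obtain ⟨κ, hκ, c0, hc0, hg⟩ := graphR Q (lam 3) 3 (hQ 3 (by norm_num)) (ε / 8) (by positivity) (by linarith)
  have e1 := (tendsto_natCast_atTop_atTop (R := ℝ)).eventually hg
  have e2 := (tendsto_natCast_atTop_atTop (R := ℝ)).eventually
    ((tendsto_rpow_atTop (show (0 : ℝ) < ε / 2 by positivity)).eventually_ge_atTop 3)
  obtain ⟨p₀, hp₀⟩ := (e1.and (e2.and (eventually_ge_atTop 2))).exists_forall_of_atTop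
  refine ⟨κ, hκ, c0, hc0, p₀, ?_⟩
  intro p hp θ _ g u v A N hA0 hA1 hA2 hN hP
  obtain ⟨g1, g2, g3⟩ := hp₀ p hp
  have hpp : p.Prime := Fact.out
  have hpr : (2 : ℝ) ≤ p := by exact_mod_cast g3
  have hp0 : (0 : ℝ) < p := by linarith
  have hmono : ∀ x y : ℝ, x ≤ y → (p : ℝ) ^ x ≤ (p : ℝ) ^ y := fun x y h =>
    Real.rpow_le_rpow_of_exponent_le (by linarith) h
  have hT0 : 0 < orderOf g := ord_pos g
  have hTr : (0 : ℝ) < (orderOf g : ℕ) := by exact_mod_cast hT0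
  have hTp : orderOf g ≤ p := by
    have h1 : orderOf g ∣ Fintype.card (ZMod p)ˣ := orderOf_dvd_card
    rw [ZMod.card_units_eq_totient, Nat.totient_prime hpp] at h1
    exact (Nat.le_of_dvd (by omega) h1).trans (Nat.sub_le _ _)
  set x : ℕ → Fin 3 → ℕ := fun n => ![n, ((u * g ^ n : (ZMod p)ˣ) : ZMod p).val, ((v * (g ^ n)⁻¹ : (ZMod p)ˣ) : ZMod p).val] with hx
  have hx0 : ∀ n, x n 0 = n := fun n => rfl
  have hx1 : ∀ n, x n 1 = ((u * g ^ n : (ZMod p)ˣ) : ZMod p).val := fun n => rfl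
  have hx2 : ∀ n, x n 2 = ((v * (g ^ n)⁻¹ : (ZMod p)ˣ) : ZMod p).val := fun n => rfl
  set m : Fin 3 → ℕ := ![orderOf g, p, p] with hm
  have hm0 : m 0 = orderOf g := rfl
  have hm1 : m 1 = p := rfl
  have hm2 : m 2 = p := rfl
  have hprod : (∏ j, (N j : ℝ) / m j) * (range (orderOf g)).card = (N 0 : ℝ) * N 1 * N 2 / (p : ℝ) ^ 2 := by
    rw [Fin.prod_univ_three, card_range, hm0, hm1, hm2]
    field_simp
  have h3 : ∀ {P : Fin 3 → Prop}, P 0 → P 1 → P 2 → ∀ j, P j := by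
    intro P h0 h1 h2 j
    fin_cases j
    · exact h0
    · exact h1
    · exact h2
  set B : ℝ := (3 * (p : ℝ) ^ 2 * ((orderOf g : ℕ) : ℝ)) ^ (1 / 4 : ℝ) with hB
  have hB0 : 0 ≤ B := by positivity
  have hB4 : B ^ 4 = 3 * (p : ℝ) ^ 2 * ((orderOf g : ℕ) : ℝ) := by
    rw [hB, ← Real.rpow_natCast, ← Real.rpow_mul (by positivity)]
    norm_num
  have key := g1.2 θ m
    (h3 (by rw [hm0]; exact hT0) (by rw [hm1]; exact hpp.one_lt.le) (by rw [hm2]; exact hpp.one_lt.le))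
    (h3 (by rw [hm0]; exact_mod_cast hTp) (by rw [hm1]) (by rw [hm2]))
    ℕ (range (orderOf g)) x
    (fun n hn => h3 (by rw [hx0, hm0]; exact mem_range.1 hn) (by rw [hx1, hm1]; exact ZMod.val_lt _)
      (by rw [hx2, hm2]; exact ZMod.val_lt _))
    B hB0
    (by
      intro h hh h0
      have hterm : ∀ n ∈ range (orderOf g), ∏ j, e ((h j : ℝ) * x n j / m j) =
          e ((h 0 : ℝ) * n / (orderOf g : ℕ)) *
            (ZMod.stdAddChar ((![(h 1 : ZMod p) * (u : ZMod p), (h 2 : ZMod p) * (v : ZMod p)] : Fin 2 → ZMod p) ⬝ᵥ iv g n) : ℂ) := by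
        intro n _
        rw [Fin.prod_univ_three, hx0, hx1, hx2, hm0, hm1, hm2, e_val, e_val, mul_assoc, ← AddChar.map_add_eq_mul, dot_iv]
        congr 2
        simp only [Matrix.cons_val_zero, Matrix.cons_val_one, Units.val_mul]
        ring
      rw [sum_congr rfl hterm]
      by_cases hc : h 1 = 0 ∧ h 2 = 0
      · have h4 : h 0 ≠ 0 := by
          intro h4
          apply h0
          funext j
          exact h3 (P := fun j => h j = (0 : Fin 3 → ℕ) j) h4 hc.1 hc.2 j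
        have h5 : ∀ n ∈ range (orderOf g), e ((h 0 : ℝ) * n / (orderOf g : ℕ)) *
            (ZMod.stdAddChar ((![(h 1 : ZMod p) * (u : ZMod p), (h 2 : ZMod p) * (v : ZMod p)] : Fin 2 → ZMod p) ⬝ᵥ iv g n) : ℂ) =
            e (((h 0 : ℤ) : ℝ) * ((n : ℝ) / (orderOf g : ℕ))) := by
          intro n _
          rw [dot_iv, hc.1, hc.2]
          simp only [Matrix.cons_val_zero, Matrix.cons_val_one, Nat.cast_zero, zero_mul, add_zero,
            AddChar.map_zero_eq_one, mul_one]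
          congr 1
          push_cast
          ring
        rw [sum_congr rfl h5, sum_char _ hT0, norm_zero]
        · exact hB0
        · intro hd
          have h6 := hh 0
          rw [hm0] at h6
          exact absurd (Int.le_of_dvd (by exact_mod_cast Nat.pos_of_ne_zero h4) hd) (by exact_mod_cast not_le.2 h6)
      · have hb : (![(h 1 : ZMod p) * (u : ZMod p), (h 2 : ZMod p) * (v : ZMod p)] : Fin 2 → ZMod p) ≠ 0 := by
          intro hb
          apply hc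
          have b0 := congrFun hb 0
          have b1 := congrFun hb 1
          simp only [Matrix.cons_val_zero, Matrix.cons_val_one, Pi.zero_apply] at b0 b1
          have c0 : (h 1 : ZMod p) = 0 := (mul_eq_zero.1 b0).resolve_right u.ne_zero
          have c1 : (h 2 : ZMod p) = 0 := (mul_eq_zero.1 b1).resolve_right v.ne_zero
          rw [ZMod.natCast_eq_zero_iff] at c0 c1
          have d1 := hh 1
          have d2 := hh 2
          rw [hm1] at d1
          rw [hm2] at d2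
          exact ⟨Nat.eq_zero_of_dvd_of_lt c0 d1, Nat.eq_zero_of_dvd_of_lt c1 d2⟩
        have h4 := KS_bound g (h 0) _ hb
        unfold KS at h4
        rw [← hB4] at h4
        exact (pow_le_pow_iff_left₀ (norm_nonneg _) hB0 (by norm_num)).1 h4)
    A N
    (h3 (by rw [hm0]; exact hA0) (by rw [hm1]; exact hA1) (by rw [hm2]; exact hA2))
    (fun j => (hmono _ _ (by linarith)).trans (hN j))
    (by
      rw [hprod, le_div_iff₀ (by positivity)]
      have hN00 : (0 : ℝ) ≤ (N 0 : ℝ) * N 1 * N 2 := by positivity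
      apply (pow_le_pow_iff_left₀ (by positivity) hN00 (show 4 ≠ 0 by norm_num)).1
      refine le_trans ?_ hP
      rw [mul_pow, mul_pow, hB4]
      have h1 : ((p : ℝ) ^ (ε / 8)) ^ 4 = (p : ℝ) ^ (ε / 2) := by
        rw [← Real.rpow_natCast, ← Real.rpow_mul hp0.le]
        congr 1
        push_cast
        ring
      have h2 : (p : ℝ) ^ (10 + ε) = (p : ℝ) ^ 2 * ((p : ℝ) ^ 2) ^ 4 * ((p : ℝ) ^ (ε / 2) * (p : ℝ) ^ (ε / 2)) := by
        rw [← Real.rpow_add hp0, ← pow_mul, ← pow_add, ← Real.rpow_natCast (p : ℝ), ← Real.rpow_add hp0]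
        congr 1
        push_cast
        ring
      rw [h1, h2]
      have hpe : 0 < (p : ℝ) ^ (ε / 2) := Real.rpow_pos_of_pos hp0 _
      calc 3 * (p : ℝ) ^ 2 * ((orderOf g : ℕ) : ℝ) * (p : ℝ) ^ (ε / 2) * ((p : ℝ) ^ 2) ^ 4 =
            ((p : ℝ) ^ 2 * ((p : ℝ) ^ 2) ^ 4 * (p : ℝ) ^ (ε / 2) * ((orderOf g : ℕ) : ℝ)) * 3 := by ring
        _ ≤ ((p : ℝ) ^ 2 * ((p : ℝ) ^ 2) ^ 4 * (p : ℝ) ^ (ε / 2) * ((orderOf g : ℕ) : ℝ)) * (p : ℝ) ^ (ε / 2) :=
            mul_le_mul_of_nonneg_left g2 (by positivity)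
        _ = _ := by ring)
  refine ⟨goodR (Q θ κ p) (range (orderOf g)) x A N, ?_, ?_⟩
  · rw [hprod] at key
    exact key
  · intro n hn
    unfold goodR at hn
    rw [mem_filter] at hn
    have i0 := mem_Ico.1 (hn.2.1 0)
    have i1 := mem_Ico.1 (hn.2.1 1)
    have i2 := mem_Ico.1 (hn.2.1 2)
    exact ⟨i0, i1, i2, hn.2.2 0, hn.2.2 1, hn.2.2 2⟩

end Pool.Agent.Q46.SL
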