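import Pool.Agent.Q46.SL.Graph
import Pool.Agent.Q46.SL.One
import Pool.Agent.Q46.MH.Mord

set_option autoImplicit false

/-! # Mordell's bound with a multiplicative twist (generic version) -/

namespace Pool.Agent.Q46.SL

open Finset Filter Polynomial
open Pool.Agent.H469R2.NK (e norm_e e_add)
open Pool.Agent.TH915.PW (e_int sum_char)
open Pool.Agent.W147.PS (ff ff_compare ev_pow)
open Pool.Agent.Q46.MH hiding good iso_two graph goodR graphR good1 graph1 logs


/-- **discrete logarithms and polynomials** -/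
theorem logs {Θ : Type} (Q : Θ → ℝ → ℝ → ℤ → Prop) (lam : ℕ → ℝ → ℝ) (hQ : ∀ r, 1 ≤ r → CS Q (lam r) r) (r s : ℕ) (hr : 1 ≤ r) (ε : ℝ) (hε : 0 < ε) (hε1 : ε ≤ 1) : ∃ κ : ℝ, 0 < κ ∧
    ∃ cc : ℝ, 0 < cc ∧ ∃ p₀ : ℕ, ∀ p : ℕ, p₀ ≤ p → ∀ θ : Θ, ∀ [Fact p.Prime], ∀ (g : (ZMod p)ˣ) (f : Fin s → (ZMod p)[X]),
      (∀ i, (f i).natDegree ≤ r) → (∀ c : Fin s → ZMod p, (∑ i, C (c i) * f i).natDegree = 0 → c = 0) →
      ∀ (A₀ N₀ : ℕ) (A N : Fin s → ℕ), A₀ + N₀ ≤ orderOf g → (∀ i, A i + N i ≤ p) →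
        (p : ℝ) ^ ε ≤ N₀ → (∀ i, (p : ℝ) ^ ε ≤ N i) →
        (p : ℝ) ^ ((2 * s + 1) * r + ε) * ((orderOf g : ℕ) : ℝ) ^ (r - 1) ≤ ((N₀ : ℝ) * ∏ i, (N i : ℝ)) ^ (2 * r) →
        ∃ G : Finset ℕ, cc * ((N₀ : ℝ) * (∏ i, (N i : ℝ)) / (p : ℝ) ^ s) * lam (s + 1) p ≤ G.card ∧ ∀ n ∈ G,
          (A₀ ≤ n ∧ n < A₀ + N₀) ∧
          (∀ i, A i ≤ ((f i).eval ((g : ZMod p) ^ n)).val ∧ ((f i).eval ((g : ZMod p) ^ n)).val < A i + N i) ∧
          (Q θ κ p (n)) ∧
          ∀ i, Q θ κ p (((f i).eval ((g : ZMod p) ^ n)).val) := by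
  classical
  have hr0 : (0 : ℝ) < r := by exact_mod_cast hr
  have hr1 : (1 : ℝ) ≤ r := by exact_mod_cast hr
  obtain ⟨ε', hε'0, hε'⟩ : ∃ ε' : ℝ, 0 < ε' ∧ ε' = ε / (4 * r) := ⟨ε / (4 * r), by positivity, rfl⟩
  have hε'1 : ε' ≤ ε / 4 := by
    rw [hε']
    apply div_le_div_of_nonneg_left hε.le (by norm_num)
    linarith
  obtain ⟨κ, hκ, c0, hc0, hg⟩ := graphR Q (lam (s + 1)) (s + 1) (hQ (s + 1) (by omega)) ε' hε'0 (by linarith)
  have e1 := (tendsto_natCast_atTop_atTop (R := ℝ)).eventually hg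
  have e2 := (tendsto_natCast_atTop_atTop (R := ℝ)).eventually
    ((tendsto_rpow_atTop (show (0 : ℝ) < ε / 2 by positivity)).eventually_ge_atTop ((r : ℝ) ^ (2 * r)))
  obtain ⟨p₀, hp₀⟩ := (e1.and (e2.and ((eventually_ge_atTop 2).and (eventually_gt_atTop r)))).exists_forall_of_atTop
  refine ⟨κ, hκ, c0, hc0, p₀, ?_⟩
  intro p hp θ _ g f hf hind A₀ N₀ A N hA0 hA hN0 hN hP
  obtain ⟨g1, g2, g3, hrp⟩ := hp₀ p hp
  have hpp : p.Prime := Fact.out
  have hpr : (2 : ℝ) ≤ p := by exact_mod_cast g3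
  have hp0 : (0 : ℝ) < p := by linarith
  have hmono : ∀ x y : ℝ, x ≤ y → (p : ℝ) ^ x ≤ (p : ℝ) ^ y := fun x y h =>
    Real.rpow_le_rpow_of_exponent_le (by linarith) h
  have hT0 : 0 < orderOf g := ord_pos g
  have hTr : (0 : ℝ) < (orderOf g : ℕ) := by exact_mod_cast hT0
  have hTp : orderOf g ≤ p := by
    have h1 : orderOf g ∣ Fintype.card (ZMod p)ˣ := orderOf_dvd_card
    rw [ZMod.card_units_eq_totient, Nat.totient_prime hpp] at h1
    exact (Nat.le_of_dvd (by omega) h1).trans (Nat.sub_le _ _)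
  set x : ℕ → Fin (s + 1) → ℕ := fun n => Fin.cons n (fun i => ((f i).eval ((g ^ n : (ZMod p)ˣ) : ZMod p)).val) with hx
  set m : Fin (s + 1) → ℕ := Fin.cons (orderOf g) (fun _ => p) with hm
  set A' : Fin (s + 1) → ℕ := Fin.cons A₀ A with hA'
  set N' : Fin (s + 1) → ℕ := Fin.cons N₀ N with hN'
  have hprod : (∏ j, (N' j : ℝ) / m j) * (range (orderOf g)).card = (N₀ : ℝ) * (∏ i, (N i : ℝ)) / (p : ℝ) ^ s := by
    rw [Fin.prod_univ_succ, card_range]
    simp only [hN', hm, Fin.cons_zero, Fin.cons_succ]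
    rw [prod_div_distrib, prod_const, card_univ, Fintype.card_fin]
    field_simp
  have key := g1.2 θ m
    (fun j => by
      refine Fin.cases ?_ (fun i => ?_) j
      · exact hT0
      · exact hpp.one_lt.le)
    (fun j => by
      refine Fin.cases ?_ (fun i => ?_) j
      · show ((orderOf g : ℕ) : ℝ) ≤ p
        exact_mod_cast hTp
      · exact le_rfl)
    ℕ (range (orderOf g)) x
    (fun n hn j => by
      refine Fin.cases ?_ (fun i => ?_) j
      · exact mem_range.1 hn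
      · exact ZMod.val_lt _)
    (MB p (orderOf g) r) (MB_nonneg _ _ _)
    (by
      intro h hh h0
      have hterm : ∀ n ∈ range (orderOf g), ∏ j, e ((h j : ℝ) * x n j / m j) =
          e ((h 0 : ℝ) * n / (orderOf g : ℕ)) *
            (ZMod.stdAddChar ((∑ i, C ((h i.succ : ℕ) : ZMod p) * f i).eval ((g ^ n : (ZMod p)ˣ) : ZMod p)) : ℂ) := by
        intro n _
        rw [Fin.prod_univ_succ, eval_finset_sum, char_sum]
        simp only [hx, hm, Fin.cons_zero, Fin.cons_succ]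
        congr 1
        refine prod_congr rfl fun i _ => ?_
        rw [e_val, eval_mul, eval_C]
      rw [sum_congr rfl hterm]
      by_cases hc : (fun i : Fin s => ((h i.succ : ℕ) : ZMod p)) = 0
      · have h2 : ∑ i, C ((h i.succ : ℕ) : ZMod p) * f i = 0 := by
          apply sum_eq_zero
          intro i _
          have := congrFun hc i
          simp only [Pi.zero_apply] at this
          rw [this, C_0, zero_mul]
        have h3 : h 0 ≠ 0 := by
          intro h4
          apply h0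
          funext j
          refine Fin.cases h4 (fun i => ?_) j
          have h5 := congrFun hc i
          simp only [Pi.zero_apply] at h5
          rw [ZMod.natCast_eq_zero_iff] at h5
          have h6 := hh i.succ
          simp only [hm, Fin.cons_succ] at h6
          exact Nat.eq_zero_of_dvd_of_lt h5 h6
        rw [h2]
        simp only [eval_zero, AddChar.map_zero_eq_one, mul_one]
        have h4 : ∑ n ∈ range (orderOf g), e ((h 0 : ℝ) * n / (orderOf g : ℕ)) = 0 := by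
          have h5 : ∀ n ∈ range (orderOf g), e ((h 0 : ℝ) * n / (orderOf g : ℕ)) =
              e (((h 0 : ℤ) : ℝ) * ((n : ℝ) / (orderOf g : ℕ))) := by
            intro n _
            congr 1
            push_cast
            ring
          rw [sum_congr rfl h5]
          apply sum_char _ hT0
          intro hd
          have h6 := hh 0
          simp only [hm, Fin.cons_zero] at h6
          exact absurd (Int.le_of_dvd (by exact_mod_cast Nat.pos_of_ne_zero h3) hd) (by exact_mod_cast not_le.2 h6)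
        rw [h4, norm_zero]
        exact MB_nonneg _ _ _
      · apply poly_exp_sum g r (h 0) hr hrp
        · apply natDegree_sum_le_of_forall_le
          intro i _
          exact (natDegree_C_mul_le _ _).trans (hf i)
        · intro h2
          exact hc (hind _ h2))
    A' N'
    (fun j => by
      refine Fin.cases ?_ (fun i => ?_) j
      · exact hA0
      · exact hA i)
    (fun j => by
      refine Fin.cases ?_ (fun i => ?_) j
      · exact (hmono _ _ (by linarith)).trans hN0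
      · exact (hmono _ _ (by linarith)).trans (hN i))
    (by
      rw [hprod, le_div_iff₀ (by positivity)]
      have hN00 : (0 : ℝ) ≤ (N₀ : ℝ) * ∏ i, (N i : ℝ) :=
        mul_nonneg (Nat.cast_nonneg _) (prod_nonneg fun _ _ => Nat.cast_nonneg _)
      have hMB := MB_nonneg p (orderOf g) r
      apply (pow_le_pow_iff_left₀ (by positivity) hN00 (show 2 * r ≠ 0 by omega)).1
      refine le_trans ?_ hP
      rw [mul_pow, mul_pow, MB_pow _ _ _ hr]
      have h1 : ((p : ℝ) ^ ε') ^ (2 * r) = (p : ℝ) ^ (ε / 2) := by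
        rw [← Real.rpow_natCast, ← Real.rpow_mul hp0.le]
        congr 1
        rw [hε']
        push_cast
        field_simp
        ring
      have h2 : (p : ℝ) ^ ((2 * (s : ℝ) + 1) * r + ε) =
          (p : ℝ) ^ r * ((p : ℝ) ^ s) ^ (2 * r) * ((p : ℝ) ^ (ε / 2) * (p : ℝ) ^ (ε / 2)) := by
        rw [← Real.rpow_add hp0, ← Real.rpow_natCast (p : ℝ) r, ← Real.rpow_natCast (p : ℝ) s,
          ← Real.rpow_natCast ((p : ℝ) ^ (s : ℝ)) (2 * r), ← Real.rpow_mul hp0.le, ← Real.rpow_add hp0,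
          ← Real.rpow_add hp0]
        congr 1
        push_cast
        ring
      rw [h1, h2]
      have hpe : 0 < (p : ℝ) ^ (ε / 2) := Real.rpow_pos_of_pos hp0 _
      calc (r : ℝ) ^ (2 * r) * ((p : ℝ) ^ r * ((orderOf g : ℕ) : ℝ) ^ (r - 1)) * (p : ℝ) ^ (ε / 2) *
            ((p : ℝ) ^ s) ^ (2 * r) = ((p : ℝ) ^ r * ((p : ℝ) ^ s) ^ (2 * r) * (p : ℝ) ^ (ε / 2) *
              ((orderOf g : ℕ) : ℝ) ^ (r - 1)) * (r : ℝ) ^ (2 * r) := by ring
        _ ≤ ((p : ℝ) ^ r * ((p : ℝ) ^ s) ^ (2 * r) * (p : ℝ) ^ (ε / 2) *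
              ((orderOf g : ℕ) : ℝ) ^ (r - 1)) * (p : ℝ) ^ (ε / 2) :=
            mul_le_mul_of_nonneg_left g2 (by positivity)
        _ = _ := by ring)
  refine ⟨goodR (Q θ κ p) (range (orderOf g)) x A' N', ?_, ?_⟩
  · rw [hprod] at key
    exact key
  · intro n hn
    unfold goodR at hn
    rw [mem_filter] at hn
    have hpw : ((g ^ n : (ZMod p)ˣ) : ZMod p) = (g : ZMod p) ^ n := Units.val_pow_eq_pow_val g n
    refine ⟨?_, fun i => ?_, ?_, fun i => ?_⟩
    · have h1 := mem_Ico.1 (hn.2.1 0)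
      exact h1
    · have h1 := mem_Ico.1 (hn.2.1 i.succ)
      simp only [hx, hA', hN', Fin.cons_succ] at h1
      rw [hpw] at h1
      exact h1
    · exact hn.2.2 0
    · have h1 := hn.2.2 i.succ
      simp only [hx, Fin.cons_succ] at h1
      rw [hpw] at h1
      exact h1

end Pool.Agent.Q46.SL
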