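import Pool.Agent.Q46.SL.Graph
import Pool.Agent.Q46.SL.One
import Pool.Agent.Q46.MH.Pseudo

set_option autoImplicit false

/-! # Pseudorandom binary sequences (generic version) -/

namespace Pool.Agent.Q46.SL

open Finset Filter
open Pool.Agent.H469R2.NK (e norm_e e_add)
open Pool.Agent.TH915.PW (e_int sum_char)
open Pool.Agent.W147.PS (ff ff_compare ev_pow)
open Pool.Agent.Y961.JR
open Pool.Agent.Q46.MH hiding good iso_two graph goodR graphR good1 graph1 pseudo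


open Classical in
/-- **pseudorandom sequences** -/
theorem pseudo {Θ : Type} (Q : Θ → ℝ → ℝ → ℤ → Prop) (lam : ℕ → ℝ → ℝ) (hQ : ∀ r, 1 ≤ r → CS Q (lam r) r) (δ : ℝ) (hδ : 0 < δ) (hδ1 : δ ≤ 1) : ∃ κ : ℝ, 0 < κ ∧ ∃ cc : ℝ, 0 < cc ∧ ∃ N₀ : ℕ, ∀ N : ℕ,
    N₀ ≤ N → ∀ θ : Θ, ∀ k : ℕ, (2 : ℝ) ^ k ≤ (N : ℝ) ^ (δ / 8) → ∀ a : ℕ → ℤ, (∀ n < N, a n = 1 ∨ a n = -1) →
      (∀ D : Finset ℕ, D.Nonempty → D.card ≤ 2 * k → ∀ M : ℕ, (∀ d ∈ D, M + d ≤ N) →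
        |((∑ n ∈ range M, bb a D n : ℤ) : ℝ)| ≤ (N : ℝ) ^ (1 - δ)) →
      ∀ d : Fin k → ℕ, Function.Injective d → (∀ i, 2 * d i ≤ N) → ∀ s : Fin k → ℤ, (∀ i, s i = 1 ∨ s i = -1) →
        cc * ((N : ℝ) / 2 ^ k) * lam 1 N ≤
          (((pat a d s (N / 2)).filter (fun n : ℕ => Q θ κ N (n))).card : ℝ) := by
  obtain ⟨η, hη0, hηδ⟩ : ∃ η : ℝ, 0 < η ∧ η ≤ δ / 8 := ⟨δ / 8, by positivity, le_rfl⟩
  obtain ⟨κ, hκ, c0, hc0, hcr⟩ := hQ 1 le_rfl η hη0 (by linarith)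
  refine ⟨κ, hκ, c0 / 4, by positivity, ?_⟩
  have e1 := (tendsto_natCast_atTop_atTop (R := ℝ)).eventually hcr
  have e2 := (tendsto_natCast_atTop_atTop (R := ℝ)).eventually
    ((tendsto_rpow_atTop (show (0 : ℝ) < δ / 4 by positivity)).eventually_ge_atTop 64)
  obtain ⟨N₀, hN₀⟩ := (e1.and (e2.and (eventually_ge_atTop 16))).exists_forall_of_atTop
  refine ⟨N₀, ?_⟩
  intro N hN θ k hk a ha hC d hd hdN s hs
  obtain ⟨⟨hlam, hM⟩, hQ, hN16⟩ := hN₀ N hN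
  have hM16 : (16 : ℝ) ≤ N := by exact_mod_cast hN16
  have hM1 : (1 : ℝ) ≤ N := by linarith
  have hM0 : (0 : ℝ) < N := by linarith
  have hmono : ∀ x y : ℝ, x ≤ y → (N : ℝ) ^ x ≤ (N : ℝ) ^ y := fun x y h =>
    Real.rpow_le_rpow_of_exponent_le hM1 h
  have hη1 : 1 ≤ (N : ℝ) ^ η := Real.one_le_rpow hM1 hη0.le
  obtain ⟨L, hL1, hL2⟩ : ∃ L : ℕ, (N : ℝ) ^ η ≤ L ∧ (L : ℝ) ≤ 2 * (N : ℝ) ^ η := by
    refine ⟨⌈(N : ℝ) ^ η⌉₊, Nat.le_ceil _, ?_⟩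
    have := (Nat.ceil_lt_add_one (show 0 ≤ (N : ℝ) ^ η by positivity)).le
    linarith
  obtain ⟨K, hK⟩ : ∃ K : ℕ, K = N / 2 := ⟨_, rfl⟩
  have hKN : (N : ℝ) / 2 - 1 ≤ K := by
    have h1 : N ≤ 2 * K + 1 := by omega
    have h2 : (N : ℝ) ≤ 2 * K + 1 := by exact_mod_cast h1
    linarith
  have hKN2 : (K : ℝ) ≤ N / 2 := by
    have h1 : 2 * K ≤ N := by omega
    have h2 : 2 * (K : ℝ) ≤ N := by exact_mod_cast h1
    linarith
  have hP0 : 0 < (N : ℝ) ^ (1 - δ / 2) := Real.rpow_pos_of_pos hM0 _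
  have hCC : 0 < (N : ℝ) ^ (1 - δ) := Real.rpow_pos_of_pos hM0 _
  have hC1 : 1 ≤ (N : ℝ) ^ (1 - δ) := Real.one_le_rpow hM1 (by linarith)
  have hPP : ((N : ℝ) ^ (1 - δ / 2)) ^ 2 = N * (N : ℝ) ^ (1 - δ) := by
    rw [← Real.rpow_natCast, ← Real.rpow_mul hM0.le]
    have : (N : ℝ) * (N : ℝ) ^ (1 - δ) = (N : ℝ) ^ (1 : ℝ) * (N : ℝ) ^ (1 - δ) := by rw [Real.rpow_one]
    rw [this, ← Real.rpow_add hM0]
    congr 1
    push_cast
    ring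
  have hpb := pat_bound ha k ((N : ℝ) ^ (1 - δ)) hCC.le hC d hd s hs K (by
    intro i
    have := hdN i
    omega)
  have hsq : Real.sqrt (K + 2 * (K * (N : ℝ) ^ (1 - δ))) ≤ 2 * (N : ℝ) ^ (1 - δ / 2) := by
    apply Real.sqrt_le_iff.2
    refine ⟨by positivity, ?_⟩
    have h1 : (K : ℝ) ≤ N := by linarith
    have h2 : (K : ℝ) * (N : ℝ) ^ (1 - δ) ≤ N / 2 * (N : ℝ) ^ (1 - δ) := mul_le_mul_of_nonneg_right hKN2 hCC.le
    have h3 : (2 * (N : ℝ) ^ (1 - δ / 2)) ^ 2 = 4 * (N * (N : ℝ) ^ (1 - δ)) := by rw [mul_pow, hPP]; norm_num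
    rw [h3]
    nlinarith
  -- parameters
  have hηP : (N : ℝ) ^ η ≤ (N : ℝ) ^ (1 - δ / 2) := hmono _ _ (by linarith)
  have hk0 : (0 : ℝ) < 2 ^ k := by positivity
  have hk1 : (1 : ℝ) ≤ 2 ^ k := one_le_pow₀ (by norm_num)
  have hPN : 64 * (2 ^ k * (N : ℝ) ^ (1 - δ / 2)) ≤ (N : ℝ) * (N : ℝ) ^ (-(δ / 8)) := by
    have h1 : (N : ℝ) * (N : ℝ) ^ (-(δ / 8)) = (N : ℝ) ^ (δ / 4) * ((N : ℝ) ^ (δ / 8) * (N : ℝ) ^ (1 - δ / 2)) := by
      have : (N : ℝ) * (N : ℝ) ^ (-(δ / 8)) = (N : ℝ) ^ (1 : ℝ) * (N : ℝ) ^ (-(δ / 8)) := by rw [Real.rpow_one]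
      rw [this, ← Real.rpow_add hM0, ← Real.rpow_add hM0, ← Real.rpow_add hM0]
      congr 1
      ring
    rw [h1]
    apply mul_le_mul hQ _ (by positivity) (by linarith)
    exact mul_le_mul_of_nonneg_right hk hP0.le
  have hδ8 : (N : ℝ) ^ (-(δ / 8)) ≤ (N : ℝ) ^ (-η) := hmono _ _ (by linarith)
  have hδ81 : (N : ℝ) ^ (-(δ / 8)) ≤ 1 := Real.rpow_le_one_of_one_le_of_nonpos hM1 (by linarith)
  have hδ80 : 0 < (N : ℝ) ^ (-(δ / 8)) := Real.rpow_pos_of_pos hM0 _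
  set S : Finset ℕ := pat a d s K with hS
  set S' : Finset ℕ := S.filter (fun n => L ≤ n) with hS'
  have hdiff : ((S \ S').card : ℝ) ≤ L := by
    have h1 : S \ S' ⊆ range L := by
      intro n hn
      rw [Finset.mem_sdiff, hS', mem_filter] at hn
      rw [mem_range]
      by_contra h2
      exact hn.2 ⟨hn.1, not_lt.1 h2⟩
    have h2 := card_le_card h1
    rw [card_range] at h2
    exact_mod_cast h2
  have hSS : (S'.card : ℝ) + (S \ S').card = S.card := by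
    have h1 : S' ⊆ S := filter_subset _ _
    have h2 := card_sdiff_add_card_eq_card h1
    rw [← h2]
    push_cast
    ring
  have hScard : (K : ℝ) / 2 ^ k - 2 * (N : ℝ) ^ (1 - δ / 2) ≤ S.card := by
    have h1 := (hpb 0).trans hsq
    have h2 : (∑ n ∈ pat a d s K, e (0 * n) - (∑ n ∈ range K, e (0 * n)) / 2 ^ k : ℂ) =
        (((S.card : ℝ) - (K : ℝ) / 2 ^ k : ℝ) : ℂ) := by
      rw [hS]
      simp [e_zero']
    rw [h2, Complex.norm_real, Real.norm_eq_abs] at h1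
    have := (abs_le.1 h1).1
    linarith
  have hPk : (N : ℝ) ^ (1 - δ / 2) ≤ N * (N : ℝ) ^ (-(δ / 8)) / (64 * 2 ^ k) := by
    rw [le_div_iff₀ (by positivity)]
    linarith
  have hPk2 : (N : ℝ) * (N : ℝ) ^ (-(δ / 8)) / (64 * 2 ^ k) ≤ N / (64 * 2 ^ k) := by
    apply div_le_div_of_nonneg_right _ (by positivity)
    nlinarith
  have hS'card : (N : ℝ) / (4 * 2 ^ k) ≤ S'.card := by
    have h1 : (N : ℝ) / (4 * 2 ^ k) = 16 * (N / (64 * 2 ^ k)) := by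
      field_simp
      norm_num
    have h2 : (K : ℝ) / 2 ^ k ≥ (N / 2 - 1) / 2 ^ k := div_le_div_of_nonneg_right hKN hk0.le
    have h3 : ((N : ℝ) / 2 - 1) / 2 ^ k = 32 * (N / (64 * 2 ^ k)) - 1 / 2 ^ k := by
      field_simp
      ring
    have h4 : (1 : ℝ) / 2 ^ k ≤ 1 := by
      rw [div_le_one hk0]
      exact hk1
    have h5 : (1 : ℝ) ≤ (N : ℝ) ^ (1 - δ / 2) := Real.one_le_rpow hM1 (by linarith)
    linarith
  have key := hM θ ℕ S' (fun n _ => (n : ℤ)) (by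
    intro n hn _
    rw [hS', mem_filter] at hn
    refine hL1.trans ?_
    push_cast
    exact_mod_cast hn.2) (by
    intro q hq hqM h hh h0
    have hh0 : h 0 ≠ 0 := by
      intro h1
      apply h0
      funext j
      rw [Subsingleton.elim j 0]
      exact h1
    have h1 : ∀ n ∈ S', e (∑ j : Fin 1, (h j : ℝ) * ((((n : ℕ) : ℤ) : ℝ) / q)) = e (((h 0 : ℝ) / q) * n) := by
      intro n _
      congr 1
      rw [Fin.sum_univ_one]
      push_cast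
      ring
    rw [sum_congr rfl h1]
    have h2 := (hpb ((h 0 : ℝ) / q)).trans hsq
    have h3 : ‖∑ n ∈ range K, e (((h 0 : ℝ) / q) * n)‖ ≤ q := by
      have := norm_FF_rat 0 K q (h 0) hh0 (hh 0)
      unfold FF at this
      rw [zero_add, Nat.Ico_zero_eq_range] at this
      exact this
    have h4 : ‖(∑ n ∈ range K, e (((h 0 : ℝ) / q) * n)) / 2 ^ k‖ ≤ q := by
      rw [norm_div, norm_pow, Complex.norm_ofNat]
      exact (div_le_self (norm_nonneg _) hk1).trans h3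
    have h5 : ‖∑ n ∈ S, e (((h 0 : ℝ) / q) * n)‖ ≤ 2 * (N : ℝ) ^ (1 - δ / 2) + q := by
      have := norm_sub_norm_le (∑ n ∈ S, e (((h 0 : ℝ) / q) * n)) ((∑ n ∈ range K, e (((h 0 : ℝ) / q) * n)) / 2 ^ k)
      linarith
    have h6 : ∑ n ∈ S', e (((h 0 : ℝ) / q) * n) = ∑ n ∈ S, e (((h 0 : ℝ) / q) * n) -
        ∑ n ∈ S \ S', e (((h 0 : ℝ) / q) * n) := by
      rw [← sum_sdiff (show S' ⊆ S from filter_subset _ _)]
      ring
    have h7 : ‖∑ n ∈ S \ S', e (((h 0 : ℝ) / q) * n)‖ ≤ (S \ S').card := by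
      refine (norm_sum_le _ _).trans ?_
      simp [norm_e]
    have h8 : ‖∑ n ∈ S', e (((h 0 : ℝ) / q) * n)‖ ≤ 5 * (N : ℝ) ^ (1 - δ / 2) := by
      rw [h6]
      refine (norm_sub_le _ _).trans ?_
      linarith
    refine h8.trans ?_
    have h9 : 5 * (N : ℝ) ^ (1 - δ / 2) ≤ (N : ℝ) / (4 * 2 ^ k) * (N : ℝ) ^ (-(δ / 8)) := by
      have : (N : ℝ) / (4 * 2 ^ k) * (N : ℝ) ^ (-(δ / 8)) = 16 * (N * (N : ℝ) ^ (-(δ / 8)) / (64 * 2 ^ k)) := by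
        field_simp
        norm_num
      rw [this]
      linarith
    refine h9.trans (mul_le_mul hS'card hδ8 hδ80.le (Nat.cast_nonneg _)))
  have hsub : S'.filter (fun n => ∀ j, Q θ κ N ((fun n _ => (n : ℤ) : ℕ → Fin 1 → ℤ) n j)) ⊆
      S.filter (fun n : ℕ => Q θ κ N (n)) := by
    intro n hn
    rw [mem_filter] at hn ⊢
    exact ⟨(mem_filter.1 hn.1).1, hn.2 0⟩
  have h9 : ((S'.filter (fun n => ∀ j, Q θ κ N ((fun n _ => (n : ℤ) : ℕ → Fin 1 → ℤ) n j))).card : ℝ) ≤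
      (S.filter (fun n : ℕ => Q θ κ N (n))).card := by
    exact_mod_cast card_le_card hsub
  rw [← hK]
  refine le_trans ?_ (key.trans h9)
  calc c0 / 4 * ((N : ℝ) / 2 ^ k) * lam 1 N = c0 * ((N : ℝ) / (4 * 2 ^ k)) * lam 1 N := by
        field_simp
    _ ≤ c0 * S'.card * lam 1 N := mul_le_mul_of_nonneg_right (mul_le_mul_of_nonneg_left hS'card hc0.le) hlam

end Pool.Agent.Q46.SL
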