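import Pool.Agent.Q46.SL.Graph
import Pool.Agent.Q46.SL.One
import Pool.Agent.Q46.MH.Sub

set_option autoImplicit false

/-! # Small multiplicative subgroups (generic version) -/

namespace Pool.Agent.Q46.SL

open Finset Filter
open Pool.Agent.H469R2.NK (e norm_e e_add)
open Pool.Agent.W147.PS (ff ff_compare ev_pow)
open Pool.Agent.TH915.PW (e_int sum_char)
open Pool.Agent.Y943.Fu (HH rp rp_nonneg sum_HH inj_pow sum_rp fourth energy_le)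
open Pool.Agent.Q46.MH hiding good iso_two graph goodR graphR good1 graph1 small_subgroups


/-- **small subgroups** -/
theorem small_subgroups {Θ : Type} (Q : Θ → ℝ → ℝ → ℤ → Prop) (lam : ℕ → ℝ → ℝ) (hQ : ∀ r, 1 ≤ r → CS Q (lam r) r) (ε : ℝ) (hε : 0 < ε) (hε1 : ε ≤ 1) : ∃ κ : ℝ, 0 < κ ∧
    ∃ cc : ℝ, 0 < cc ∧ ∃ p₀ : ℕ, ∀ p : ℕ, p₀ ≤ p → ∀ θ : Θ,
    p.Prime → ∀ g c : ℤ, ¬ (p : ℤ) ∣ g → ¬ (p : ℤ) ∣ c → ∀ A1 N1 A2 N2 : ℕ,
      A1 + N1 ≤ orderOf (g : ZMod p) → A2 + N2 ≤ p →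
      (p : ℝ) ^ (9 / 8 + ε) * (orderOf (g : ZMod p) : ℝ) ^ (2 / 3 : ℝ) ≤ (N1 : ℝ) * N2 →
      ∃ G : Finset (ℕ × ℕ), cc * ((N1 : ℝ) * N2 / p) * lam 2 p ≤ G.card ∧
        ∀ z ∈ G, (A1 ≤ z.1 ∧ z.1 < A1 + N1) ∧ (A2 ≤ z.2 ∧ z.2 < A2 + N2) ∧
          (p : ℤ) ∣ z.2 - c * g ^ z.1 ∧
          (Q θ κ p (z.1)) ∧ Q θ κ p (z.2) := by
  classical
  obtain ⟨κ, hκ, c0, hc0, hg⟩ := graph Q (lam 2) (hQ 2 (by norm_num)) (ε / 2) (by positivity) (by linarith)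
  have e1 := (tendsto_natCast_atTop_atTop (R := ℝ)).eventually hg
  have e2 := (tendsto_natCast_atTop_atTop (R := ℝ)).eventually
    ((tendsto_rpow_atTop (show (0 : ℝ) < ε / 2 by positivity)).eventually_ge_atTop 2)
  obtain ⟨p₀, hp₀⟩ := (e1.and (e2.and (eventually_ge_atTop 2))).exists_forall_of_atTop
  refine ⟨κ, hκ, c0, hc0, p₀, ?_⟩
  intro p hp0 θ hp g c hgp hc A1 N1 A2 N2 hA1 hA2 hN
  obtain ⟨g1, g2, g3⟩ := hp₀ p hp0
  have : Fact p.Prime := ⟨hp⟩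
  have hpr : (2 : ℝ) ≤ p := by exact_mod_cast g3
  have hp0' : (0 : ℝ) < p := by linarith
  have hgu : (g : ZMod p) ≠ 0 := by
    rw [Ne, ZMod.intCast_zmod_eq_zero_iff_dvd]
    exact hgp
  have hcu : (c : ZMod p) ≠ 0 := by
    rw [Ne, ZMod.intCast_zmod_eq_zero_iff_dvd]
    exact hc
  set cu : (ZMod p)ˣ := Units.mk0 (c : ZMod p) hcu with hcud
  set gu : (ZMod p)ˣ := Units.mk0 (g : ZMod p) hgu with hgud
  have hord : orderOf (g : ZMod p) = orderOf gu := by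
    rw [← orderOf_units, hgud, Units.val_mk0]
  rw [hord] at hA1 hN
  set T := orderOf gu with hT
  have hT0 : 0 < T := ord_pos gu
  have hTr : (1 : ℝ) ≤ T := by exact_mod_cast hT0
  have hTp : T ≤ p := by
    have h1 : T ∣ Fintype.card (ZMod p)ˣ := orderOf_dvd_card
    rw [ZMod.card_units_eq_totient, Nat.totient_prime hp] at h1
    exact (Nat.le_of_dvd (by omega) h1).trans (Nat.sub_le _ _)
  have hTpr : (T : ℝ) ≤ p := by exact_mod_cast hTp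
  have hN2p : (N2 : ℝ) ≤ p := by exact_mod_cast (by omega : N2 ≤ p)
  have hN1p : (N1 : ℝ) ≤ p := by exact_mod_cast (by omega : N1 ≤ p)
  have hN10 : (0 : ℝ) ≤ N1 := Nat.cast_nonneg _
  have hN20 : (0 : ℝ) ≤ N2 := Nat.cast_nonneg _
  have hmono : ∀ x y : ℝ, x ≤ y → (p : ℝ) ^ x ≤ (p : ℝ) ^ y := fun x y h =>
    Real.rpow_le_rpow_of_exponent_le (by linarith) h
  have hT23 : (1 : ℝ) ≤ (T : ℝ) ^ (2 / 3 : ℝ) := Real.one_le_rpow hTr (by norm_num)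
  have hlow : (p : ℝ) ^ (1 + ε) ≤ (N1 : ℝ) * N2 := by
    refine le_trans ?_ hN
    have h1 : (p : ℝ) ^ (1 + ε) ≤ (p : ℝ) ^ (9 / 8 + ε) := hmono _ _ (by linarith)
    have h2 : 0 ≤ (p : ℝ) ^ (9 / 8 + ε) := by positivity
    nlinarith
  have hsplit : (p : ℝ) ^ (1 + ε) = (p : ℝ) ^ ε * p := by
    rw [add_comm, Real.rpow_add_one hp0'.ne']
  rw [hsplit] at hlow
  have hN1 : (p : ℝ) ^ ε ≤ N1 := by
    have : (N1 : ℝ) * N2 ≤ N1 * p := mul_le_mul_of_nonneg_left hN2p hN10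
    exact le_of_mul_le_mul_right (hlow.trans this) hp0'
  have hN2 : (p : ℝ) ^ ε ≤ N2 := by
    have : (N1 : ℝ) * N2 ≤ N2 * p := by
      rw [mul_comm]
      exact mul_le_mul_of_nonneg_left hN1p hN20
    exact le_of_mul_le_mul_right (hlow.trans this) hp0'
  have hTr0 : (0 : ℝ) < T := by linarith
  have hW : (N1 : ℝ) * N2 * ((range T).card : ℕ) / (T * p) = (N1 : ℝ) * N2 / p := by
    rw [card_range]
    field_simp
  have hBW : 2 * ((p : ℝ) ^ (1 / 8 : ℝ) * (T : ℝ) ^ (2 / 3 : ℝ)) * (p : ℝ) ^ (ε / 2) ≤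
      (N1 : ℝ) * N2 * ((range T).card : ℕ) / (T * p) := by
    rw [hW, le_div_iff₀ hp0']
    refine le_trans ?_ hN
    have h5 : (p : ℝ) ^ (9 / 8 + ε) = (p : ℝ) ^ (1 / 8 : ℝ) * (p : ℝ) ^ (ε / 2) * (p : ℝ) ^ (ε / 2) * p := by
      rw [← Real.rpow_add hp0', ← Real.rpow_add hp0', ← Real.rpow_add_one hp0'.ne']
      congr 1
      ring
    rw [h5]
    have h6 : 0 ≤ (p : ℝ) ^ (1 / 8 : ℝ) * (T : ℝ) ^ (2 / 3 : ℝ) * (p : ℝ) ^ (ε / 2) * p := by positivity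
    have h7 := mul_le_mul_of_nonneg_left g2 h6
    nlinarith
  have key := g1.2 θ T p hT0 hp.one_lt.le hTpr le_rfl ℕ (range T)
    (fun n => n) (fun n => ((cu * gu ^ n : (ZMod p)ˣ) : ZMod p).val)
    (fun n hn => mem_range.1 hn) (fun n _ => ZMod.val_lt _)
    (2 * ((p : ℝ) ^ (1 / 8 : ℝ) * (T : ℝ) ^ (2 / 3 : ℝ))) (by positivity)
    (fun h hh k hk h0 => expo_sum2 gu cu h k hh hk h0) A1 N1 A2 N2 hA1 hA2
    ((hmono _ _ (by linarith)).trans hN1) ((hmono _ _ (by linarith)).trans hN2) hBW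
  set G0 := good (Q θ κ p) (range T) (fun n => n)
    (fun n => ((cu * gu ^ n : (ZMod p)ˣ) : ZMod p).val) A1 N1 A2 N2 with hG0
  refine ⟨G0.image (fun n : ℕ => (n, ((cu * gu ^ n : (ZMod p)ˣ) : ZMod p).val)), ?_, ?_⟩
  · rw [card_image_of_injective]
    · rw [hW] at key
      exact key
    · intro u v huv
      exact (Prod.ext_iff.1 huv).1
  · intro z hz
    obtain ⟨n, hn, rfl⟩ := mem_image.1 hz
    rw [hG0] at hn
    unfold good at hn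
    rw [mem_filter, mem_Ico, mem_Ico] at hn
    obtain ⟨-, h1, h2, h3, h4⟩ := hn
    refine ⟨h1, h2, ?_, h3, h4⟩
    rw [← ZMod.intCast_zmod_eq_zero_iff_dvd, Int.cast_sub, Int.cast_mul, Int.cast_pow, Int.cast_natCast,
      ZMod.natCast_zmod_val, Units.val_mul, Units.val_pow_eq_pow_val, hcud, hgud, Units.val_mk0,
      Units.val_mk0, sub_self]

end Pool.Agent.Q46.SL
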